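import Mathlib

/-! Extending field homomorphisms to a quadratic extension. -/

set_option autoImplicit false

namespace H450Iv

open IntermediateField

variable {M L : Type*} [Field M] [Algebra ℂ M] [Field L] [Algebra ℂ L]

/-- the quadratic extension `K(w)` -/
noncomputable def ext1 (K : IntermediateField ℂ M) (w : M) : IntermediateField ℂ M :=
  IntermediateField.restrictScalars ℂ (adjoin (↥K) ({w} : Set M))

theorem le_ext1 (K : IntermediateField ℂ M) (w : M) : K ≤ ext1 K w := by
  intro x hx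
  change x ∈ adjoin (↥K) ({w} : Set M)
  exact IntermediateField.algebraMap_mem (adjoin (↥K) ({w} : Set M)) (⟨x, hx⟩ : K)

theorem mem_ext1 (K : IntermediateField ℂ M) (w : M) : w ∈ ext1 K w := by
  change w ∈ adjoin (↥K) ({w} : Set M)
  exact subset_adjoin _ _ rfl

theorem extend_hom (K : IntermediateField ℂ M) (ψ : K →ₐ[ℂ] L) (w f : M) (hf : f ∈ K)
    (hw : w ^ 2 = f) (hwK : w ∉ K) (w' : L) (hw' : w' ^ 2 = ψ ⟨f, hf⟩) :
    ∃ ψ2 : (ext1 K w) →ₐ[ℂ] L,
      (∀ x (hx : x ∈ K), ψ2 ⟨x, le_ext1 K w hx⟩ = ψ ⟨x, hx⟩) ∧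
      ψ2 ⟨w, mem_ext1 K w⟩ = w' := by
  let alg : Algebra K L := ψ.toRingHom.toAlgebra
  have tow : IsScalarTower ℂ K L := by
    refine IsScalarTower.of_algebraMap_eq ?_
    intro x
    change algebraMap ℂ L x = ψ (algebraMap ℂ K x)
    rw [ψ.commutes]
  have hint : IsIntegral K w := by
    refine ⟨Polynomial.X ^ 2 - Polynomial.C ⟨f, hf⟩, Polynomial.monic_X_pow_sub_C _ (by norm_num), ?_⟩
    rw [← Polynomial.aeval_def]
    simp only [map_sub, map_pow, Polynomial.aeval_X, Polynomial.aeval_C]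
    rw [hw]; exact sub_self _
  have hirr : Irreducible (Polynomial.X ^ 2 - Polynomial.C (⟨f, hf⟩ : K)) := by
    rw [X_pow_sub_C_irreducible_iff_of_prime Nat.prime_two]
    intro b hb
    have hb' : (b : M) ^ 2 = w ^ 2 := by
      rw [hw]
      have := congrArg (fun x : K => (x : M)) hb
      simpa using this
    rcases sq_eq_sq_iff_eq_or_eq_neg.1 hb' with h | h
    · exact hwK (h ▸ b.2)
    · apply hwK
      have : w = -(b : M) := by rw [h]; ring
      rw [this]
      exact neg_mem b.2
  have hmin : minpoly K w = Polynomial.X ^ 2 - Polynomial.C (⟨f, hf⟩ : K) := by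
    symm
    apply minpoly.eq_of_irreducible_of_monic hirr
    · simp only [map_sub, map_pow, Polynomial.aeval_X, Polynomial.aeval_C]
      rw [hw]; exact sub_self _
    · exact Polynomial.monic_X_pow_sub_C _ (by norm_num)
  have hroot : w' ∈ (minpoly K w).aroots L := by
    rw [Polynomial.mem_aroots, hmin]
    refine ⟨Polynomial.X_pow_sub_C_ne_zero (by norm_num) _, ?_⟩
    simp only [map_sub, map_pow, Polynomial.aeval_X, Polynomial.aeval_C]
    rw [hw']
    exact sub_self _
  let φ := (IntermediateField.algHomAdjoinIntegralEquiv K hint).symm ⟨w', hroot⟩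
  have hφ : φ (AdjoinSimple.gen K w) = w' :=
    IntermediateField.algHomAdjoinIntegralEquiv_symm_apply_gen K hint ⟨w', hroot⟩
  refine ⟨φ.restrictScalars ℂ, ?_, ?_⟩
  · intro x hx
    have h1 := φ.commutes ⟨x, hx⟩
    exact h1
  · exact hφ

end H450Iv
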