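import Mathlib

/-! Hahn series field `L0 = ℂ((s))((t))` (as Hahn series over `ℤ ×ₗ ℤ`), square roots, orders. -/

set_option autoImplicit false

namespace H450Iv

open HahnSeries

/-- the value group -/
abbrev G := ℤ ×ₗ ℤ

/-- the field of Hahn series -/
abbrev L0 := HahnSeries G ℂ

noncomputable section

/-- the valuation -/
def vv : AddValuation L0 (WithTop G) := HahnSeries.addVal G ℂ

theorem vv_C {a : ℂ} (ha : a ≠ 0) : vv (algebraMap ℂ L0 a) = 0 := by
  have h : algebraMap ℂ L0 a = HahnSeries.C a := rfl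
  rw [vv, HahnSeries.addVal_apply, h, HahnSeries.C_apply, HahnSeries.orderTop_single ha]
  rfl

theorem vv_ne_top {x : L0} (hx : x ≠ 0) : vv x ≠ ⊤ := by
  intro h
  exact hx ((AddValuation.top_iff vv).1 h)

theorem sqrt_exists (x : L0) (hx : 0 < vv x) :
    ∃ h : L0, h ^ 2 = 1 + x ∧ 0 < vv (h - 1) := by
  have hx' : 0 < x.orderTop := by
    rw [vv, HahnSeries.addVal_apply] at hx
    exact hx
  refine ⟨PowerSeries.heval x (PowerSeries.binomialSeries ℂ (1 / 2 : ℂ)), ?_, ?_⟩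
  · rw [pow_two, ← map_mul, ← PowerSeries.binomialSeries_add]
    have h1 : (1 / 2 + 1 / 2 : ℂ) = ((1 : ℕ) : ℂ) := by norm_num
    rw [h1, PowerSeries.binomialSeries_nat, pow_one, map_add, map_one, PowerSeries.heval_X x hx']
  · have h2 : 0 < ((1 + x) - 1 : L0).orderTop := by
      rw [add_sub_cancel_left]; exact hx'
    have h3 := HahnSeries.SummableFamily.orderTop_hsum_binomialFamily_pos h2 (1 / 2 : ℂ)
    rw [HahnSeries.SummableFamily.binomialFamily] at h3
    rw [add_sub_cancel_left] at h3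
    rw [vv, HahnSeries.addVal_apply, PowerSeries.heval_apply]
    exact h3

/-- the variable `t` -/
def tt : L0 := HahnSeries.single (toLex ((1 : ℤ), (0 : ℤ))) (1 : ℂ)

/-- the variable `s⁻¹` -/
def zz : L0 := HahnSeries.single (toLex ((0 : ℤ), (-1 : ℤ))) (1 : ℂ)

theorem vv_tt : vv tt = ((toLex ((1 : ℤ), (0 : ℤ)) : G) : WithTop G) := by
  rw [vv, HahnSeries.addVal_apply, tt, HahnSeries.orderTop_single one_ne_zero]

theorem vv_zz : vv zz = ((toLex ((0 : ℤ), (-1 : ℤ)) : G) : WithTop G) := by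
  rw [vv, HahnSeries.addVal_apply, zz, HahnSeries.orderTop_single one_ne_zero]

theorem vv_tt_pos : 0 < vv tt := by
  rw [vv_tt]
  have : (0 : G) < toLex ((1 : ℤ), (0 : ℤ)) := by
    rw [show (0 : G) = toLex ((0:ℤ),(0:ℤ)) from rfl, Prod.Lex.toLex_lt_toLex]; simp
  exact_mod_cast this

theorem vv_zz_neg : vv zz < 0 := by
  rw [vv_zz]
  have : toLex ((0 : ℤ), (-1 : ℤ)) < (0 : G) := by
    rw [show (0 : G) = toLex ((0:ℤ),(0:ℤ)) from rfl, Prod.Lex.toLex_lt_toLex]; simp
  exact_mod_cast this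

/-- `r² - (r+t)²` is not a square -/
theorem nonsquare (r : ℂ) (hr : r ≠ 0) (u : L0)
    (hu : u ^ 2 = algebraMap ℂ L0 r ^ 2 - (algebraMap ℂ L0 r + tt) ^ 2) : False := by
  have h1 : u ^ 2 = -(tt * (algebraMap ℂ L0 (2 * r) + tt)) := by
    rw [hu, map_mul]
    have : algebraMap ℂ L0 2 = 2 := map_ofNat _ 2
    rw [this]; ring
  have h2r : (2 * r : ℂ) ≠ 0 := by simp [hr]
  have h3 : vv (algebraMap ℂ L0 (2 * r) + tt) = 0 := by
    have h4 : vv (algebraMap ℂ L0 (2 * r)) < vv tt := by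
      rw [vv_C h2r]; exact vv_tt_pos
    rw [AddValuation.map_add_eq_of_lt_left vv h4, vv_C h2r]
  have h5 : 2 • vv u = vv tt := by
    rw [← AddValuation.map_pow, h1, AddValuation.map_neg, AddValuation.map_mul, h3, add_zero]
  have hu0 : vv u ≠ ⊤ := by
    intro h
    rw [h, vv_tt, two_nsmul, top_add] at h5
    exact WithTop.top_ne_coe h5
  obtain ⟨g, hg⟩ := WithTop.ne_top_iff_exists.1 hu0
  rw [← hg, vv_tt] at h5
  have h6 : (2 • g : G) = toLex ((1 : ℤ), (0 : ℤ)) := by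
    exact_mod_cast h5
  have h7 : (ofLex (2 • g)).1 = 1 := by rw [h6]; rfl
  have h8 : (ofLex (2 • g)).1 = (ofLex g).1 + (ofLex g).1 := by
    rw [two_nsmul]; rfl
  omega

theorem zz_pow_tt_pow (a b : ℕ) (c : ℂ) :
    algebraMap ℂ L0 c * (zz ^ a * tt ^ b) =
      HahnSeries.single (toLex ((b : ℤ), -(a : ℤ))) c := by
  have h : algebraMap ℂ L0 c = HahnSeries.C c := rfl
  rw [h, zz, tt, HahnSeries.single_pow, HahnSeries.single_pow, HahnSeries.single_mul_single,
    HahnSeries.C_apply, HahnSeries.single_mul_single, one_pow, one_pow, mul_one, mul_one, zero_add]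
  congr 1
  have h1 : (a • toLex ((0 : ℤ), (-1 : ℤ)) : G) = toLex ((0 : ℤ), -(a : ℤ)) := by
    change toLex (a • ((0 : ℤ), (-1 : ℤ))) = _
    simp
  have h2 : (b • toLex ((1 : ℤ), (0 : ℤ)) : G) = toLex ((b : ℤ), (0 : ℤ)) := by
    change toLex (b • ((1 : ℤ), (0 : ℤ))) = _
    simp
  rw [h1, h2, ← toLex_add]
  simp

theorem ind_zz_tt : AlgebraicIndependent ℂ ![zz, tt] := by
  rw [algebraicIndependent_iff]
  intro p hp
  by_contra hne
  obtain ⟨m, hm⟩ := MvPolynomial.ne_zero_iff.1 hne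
  apply hm
  have h1 : (MvPolynomial.aeval ![zz, tt] p).coeff (toLex ((m 1 : ℤ), -(m 0 : ℤ))) = 0 := by
    rw [hp]; rfl
  rw [← h1, MvPolynomial.aeval_def, MvPolynomial.eval₂_eq']
  rw [HahnSeries.coeff_sum]
  rw [Finset.sum_eq_single m]
  · rw [Fin.prod_univ_two]
    simp only [Matrix.cons_val_zero, Matrix.cons_val_one]
    rw [zz_pow_tt_pow, HahnSeries.coeff_single_same]
  · intro n hn hnm
    rw [Fin.prod_univ_two]
    simp only [Matrix.cons_val_zero, Matrix.cons_val_one]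
    rw [zz_pow_tt_pow, HahnSeries.coeff_single_of_ne]
    intro h
    apply hnm
    have h2 : ((m 1 : ℤ), -(m 0 : ℤ)) = ((n 1 : ℤ), -(n 0 : ℤ)) := toLex.injective h
    rw [Prod.mk.injEq] at h2
    ext i
    fin_cases i
    · have := h2.2; simp at this ⊢; omega
    · have := h2.1; simp at this ⊢; omega
  · intro hm'
    rw [MvPolynomial.notMem_support_iff.1 hm', map_zero, zero_mul]
    rfl

end

end H450Iv
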