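import Mathlib

/-! Algebraically independent pairs. -/

set_option autoImplicit false

namespace H450Iv

open IntermediateField

variable {M : Type*} [Field M] [Algebra ℂ M]

/-- `z, p` are algebraically independent over `ℂ` -/
def Ind (z p : M) : Prop := AlgebraicIndependent ℂ ![z, p]

theorem ind_symm {z p : M} (h : Ind z p) : Ind p z := by
  have h2 := h.comp (Equiv.swap (0 : Fin 2) 1) (Equiv.injective _)
  unfold Ind
  convert h2 using 1
  ext i
  fin_cases i <;> simp

theorem ind_iff {z p : M} : Ind z p ↔ Transcendental ℂ z ∧ Transcendental (adjoin ℂ {z}) p := by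
  unfold Ind
  rw [AlgebraicIndependent.iff_transcendental_adjoin_image 1]
  have h1 : (![z, p] '' ({1} : Set (Fin 2))ᶜ) = {z} := by
    ext x
    simp only [Set.mem_image, Set.mem_compl_iff, Set.mem_singleton_iff]
    constructor
    · rintro ⟨i, hi, rfl⟩
      fin_cases i
      · rfl
      · exact absurd rfl hi
    · rintro rfl
      exact ⟨0, by simp, rfl⟩
  rw [h1, ← IntermediateField.transcendental_adjoin_iff]
  have hu : Unique {j : Fin 2 // j ≠ 1} :=
    { default := ⟨0, by simp⟩
      uniq := by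
        rintro ⟨a, ha⟩
        apply Subtype.ext
        fin_cases a
        · rfl
        · exact absurd rfl ha }
  have h2 : AlgebraicIndependent ℂ (fun j : {j : Fin 2 // j ≠ 1} => ![z, p] j) ↔
      Transcendental ℂ z := by
    rw [algebraicIndependent_unique_type_iff]
    have : (default : {j : Fin 2 // j ≠ 1}) = ⟨0, by simp⟩ := Subsingleton.elim _ _
    rw [this]
    rfl
  rw [h2]
  rfl

theorem ind_transc {z p : M} (h : Ind z p) : Transcendental ℂ p := (ind_iff.1 (ind_symm h)).1

theorem ind_ne_zero {z p : M} (h : Ind z p) : z ≠ 0 := by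
  rintro rfl
  exact (ind_iff.1 h).1 (isAlgebraic_zero)

/-- adding an element of `ℂ(z)` to `p` keeps independence -/
theorem ind_add {z p : M} (h : Ind z p) (c : M) (hc : c ∈ adjoin ℂ {z}) : Ind z (p + c) := by
  rw [ind_iff] at h ⊢
  refine ⟨h.1, ?_⟩
  intro hal
  apply h.2
  have h3 : p = (p + c) - algebraMap (adjoin ℂ {z}) M ⟨c, hc⟩ := by
    have : algebraMap (adjoin ℂ {z}) M ⟨c, hc⟩ = c := rfl
    rw [this]; ring
  rw [h3]
  exact hal.sub (isAlgebraic_algebraMap _)

theorem ind_shift {z p : M} (h : Ind z p) (α β : ℂ) :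
    Ind z (p + algebraMap ℂ M α * z + algebraMap ℂ M β * z⁻¹) := by
  rw [add_assoc]
  apply ind_add h
  have hz : z ∈ adjoin ℂ ({z} : Set M) := subset_adjoin ℂ _ rfl
  exact add_mem (mul_mem (IntermediateField.algebraMap_mem _ α) hz)
    (mul_mem (IntermediateField.algebraMap_mem _ β) (inv_mem hz))

/-- multiplying `z` by a nonzero element algebraic over `ℂ(p)` keeps independence -/
theorem ind_mul {z p : M} (h : Ind z p) (c : M) (hc0 : c ≠ 0)
    (hc : IsAlgebraic (adjoin ℂ {p}) c) : Ind (c * z) p := by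
  apply ind_symm
  have h' := ind_iff.1 (ind_symm h)
  rw [ind_iff]
  refine ⟨h'.1, ?_⟩
  intro hal
  apply h'.2
  have h3 : z = c⁻¹ * (c * z) := by rw [inv_mul_cancel_left₀ hc0]
  rw [h3]
  exact (hc.inv).mul hal

/-- square roots of elements of a field are algebraic -/
theorem isAlg_of_sq {K : IntermediateField ℂ M} {w f : M} (hf : f ∈ K) (hw : w ^ 2 = f) :
    IsAlgebraic K w := by
  refine ⟨Polynomial.X ^ 2 - Polynomial.C ⟨f, hf⟩, ?_, ?_⟩
  · exact Polynomial.X_pow_sub_C_ne_zero (by norm_num) _
  · simp only [map_sub, map_pow, Polynomial.aeval_X, Polynomial.aeval_C]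
    rw [hw]
    exact sub_self _

end H450Iv
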