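import Mathlib
import Pool.Agent.H450R2.Iv.Hahn
import Pool.Agent.H450R2.Iv.Ind
import Pool.Agent.H450R2.Iv.Ext

/-! The algebraic core: composites of circular reflections generate a maximal tower. -/

set_option autoImplicit false

namespace H450Iv

open IntermediateField

/-- elementary steps: reflection-type twist with radius `r`, exponent `e`, constant `κ`;
shift of the centre -/
inductive Step where
  | hit (r : ℝ) (e : ℤ) (κ : ℂ)
  | shift (α β : ℂ)

section defs
variable {M : Type*} [Field M] [Algebra ℂ M]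

/-- `g = (w + i p) / r` -/
noncomputable def gg (r : ℝ) (w p : M) : M :=
  (w + algebraMap ℂ M Complex.I * p) * algebraMap ℂ M ((r : ℂ)⁻¹)

/-- runs of a program (the head of the list is the last step) -/
inductive Run (z0 p0 : M) : List Step → IntermediateField ℂ M → M → M → Prop
  | nil : Run z0 p0 [] (adjoin ℂ {z0, p0}) z0 p0
  | hit (l : List Step) (K : IntermediateField ℂ M) (z p : M) (r : ℝ) (e : ℤ) (κ : ℂ) (w : M)
      (h : Run z0 p0 l K z p)
      (hw : w ^ 2 = algebraMap ℂ M ((r : ℂ) ^ 2) - p ^ 2) :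
      Run z0 p0 (Step.hit r e κ :: l) (ext1 K w)
        (algebraMap ℂ M κ * z * (gg r w p) ^ (2 * e)) p
  | shift (l : List Step) (K : IntermediateField ℂ M) (z p : M) (α β : ℂ)
      (h : Run z0 p0 l K z p) :
      Run z0 p0 (Step.shift α β :: l) K z
        (p + algebraMap ℂ M α * z + algebraMap ℂ M β * z⁻¹)
end defs

/-- radii of the current block -/
def trail : List Step → List ℝ
  | [] => []
  | Step.hit r _ _ :: l => r :: trail l
  | Step.shift _ _ :: _ => []

/-- is the head a shift? -/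
def headShift : List Step → Prop
  | [] => False
  | Step.hit _ _ _ :: _ => False
  | Step.shift _ _ :: _ => True

/-- well-formed programs -/
def WF : List Step → Prop
  | [] => True
  | Step.hit r e κ :: l => WF l ∧ 0 < r ∧ e ≠ 0 ∧ κ ≠ 0 ∧ r ∉ trail l
  | Step.shift α β :: l => WF l ∧ α ≠ 0 ∧ β ≠ 0 ∧ ¬ headShift l

section basics
variable {M : Type*} [Field M] [Algebra ℂ M]

theorem I_sq : (algebraMap ℂ M Complex.I) ^ 2 = -1 := by
  rw [← map_pow, Complex.I_sq, map_neg, map_one]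

theorem gg_mul (r : ℝ) (hr : 0 < r) (w p : M)
    (hw : w ^ 2 = algebraMap ℂ M ((r : ℂ) ^ 2) - p ^ 2) :
    gg r w p * ((w - algebraMap ℂ M Complex.I * p) * algebraMap ℂ M ((r : ℂ)⁻¹)) = 1 := by
  unfold gg
  have hI := I_sq (M := M)
  have h1 : (w + algebraMap ℂ M Complex.I * p) * (w - algebraMap ℂ M Complex.I * p) =
      algebraMap ℂ M ((r : ℂ) ^ 2) := by
    have : (w + algebraMap ℂ M Complex.I * p) * (w - algebraMap ℂ M Complex.I * p) =
      w ^ 2 - (algebraMap ℂ M Complex.I) ^ 2 * p ^ 2 := by ring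
    rw [this, hI, hw]; ring
  calc _ = ((w + algebraMap ℂ M Complex.I * p) * (w - algebraMap ℂ M Complex.I * p)) *
        (algebraMap ℂ M ((r : ℂ)⁻¹) * algebraMap ℂ M ((r : ℂ)⁻¹)) := by ring
    _ = 1 := by
      rw [h1, ← map_mul, ← map_mul, ← map_one (algebraMap ℂ M)]
      congr 1
      have : (r : ℂ) ≠ 0 := by exact_mod_cast hr.ne'
      field_simp

theorem gg_ne (r : ℝ) (hr : 0 < r) (w p : M)
    (hw : w ^ 2 = algebraMap ℂ M ((r : ℂ) ^ 2) - p ^ 2) : gg r w p ≠ 0 := by
  intro h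
  have := gg_mul r hr w p hw
  rw [h, zero_mul] at this
  exact zero_ne_one this

theorem gg_mem {K : IntermediateField ℂ M} (r : ℝ) {w p : M} (hw : w ∈ K) (hp : p ∈ K) :
    gg r w p ∈ K :=
  mul_mem (add_mem hw (mul_mem (IntermediateField.algebraMap_mem _ _) hp))
    (IntermediateField.algebraMap_mem _ _)

theorem gg_alg (r : ℝ) (w p : M)
    (hw : w ^ 2 = algebraMap ℂ M ((r : ℂ) ^ 2) - p ^ 2) :
    IsAlgebraic (adjoin ℂ {p}) (gg r w p) := by
  have hp : p ∈ adjoin ℂ ({p} : Set M) := subset_adjoin ℂ _ rfl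
  have h1 : IsAlgebraic (adjoin ℂ {p}) w :=
    isAlg_of_sq (sub_mem (IntermediateField.algebraMap_mem _ _) (pow_mem hp 2)) hw
  have h2 : ∀ x ∈ adjoin ℂ ({p} : Set M), IsAlgebraic (adjoin ℂ {p}) x := by
    intro x hx
    exact isAlgebraic_algebraMap (⟨x, hx⟩ : adjoin ℂ ({p} : Set M))
  exact (h1.add (h2 _ (mul_mem (IntermediateField.algebraMap_mem _ _) hp))).mul
    (h2 _ (IntermediateField.algebraMap_mem _ _))

theorem run_mem {z0 p0 : M} {l : List Step} {K : IntermediateField ℂ M} {z p : M}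
    (h : Run z0 p0 l K z p) : z ∈ K ∧ p ∈ K := by
  induction h with
  | nil => exact ⟨subset_adjoin ℂ _ (by simp), subset_adjoin ℂ _ (by simp)⟩
  | hit l K z p r e κ w h hw ih =>
    have h1 := le_ext1 K w ih.1
    have h2 := le_ext1 K w ih.2
    exact ⟨mul_mem (mul_mem (IntermediateField.algebraMap_mem _ _) h1)
      (zpow_mem (gg_mem r (mem_ext1 K w) h2) _), h2⟩
  | shift l K z p α β h ih =>
    exact ⟨ih.1, add_mem (add_mem ih.2 (mul_mem (IntermediateField.algebraMap_mem _ _) ih.1))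
      (mul_mem (IntermediateField.algebraMap_mem _ _) (inv_mem ih.1))⟩

theorem ind_hit {z p : M} (h : Ind z p) (r : ℝ) (hr : 0 < r) (e : ℤ) (κ : ℂ) (hκ : κ ≠ 0) (w : M)
    (hw : w ^ 2 = algebraMap ℂ M ((r : ℂ) ^ 2) - p ^ 2) :
    Ind (algebraMap ℂ M κ * z * (gg r w p) ^ e) p := by
  have h1 : algebraMap ℂ M κ * z * (gg r w p) ^ e =
      (algebraMap ℂ M κ * (gg r w p) ^ e) * z := by ring
  rw [h1]
  apply ind_mul h
  · exact mul_ne_zero ((map_ne_zero _).2 hκ) (zpow_ne_zero _ (gg_ne r hr w p hw))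
  · have h2 : IsAlgebraic (adjoin ℂ {p}) (algebraMap ℂ M κ) :=
      isAlgebraic_algebraMap (⟨_, IntermediateField.algebraMap_mem _ _⟩ : adjoin ℂ ({p} : Set M))
    have h3 := gg_alg r w p hw
    apply h2.mul
    obtain ⟨n, rfl | rfl⟩ := e.eq_nat_or_neg
    · rw [zpow_natCast]; exact h3.pow n
    · rw [zpow_neg, zpow_natCast]; exact (h3.pow n).inv

theorem run_ind {z0 p0 : M} {l : List Step} {K : IntermediateField ℂ M} {z p : M}
    (h : Run z0 p0 l K z p) (hl : WF l) (h0 : Ind z0 p0) : Ind z p := by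
  induction h with
  | nil => exact h0
  | hit l K z p r e κ w h hw ih =>
    exact ind_hit (ih hl.1) r hl.2.1 (2 * e) κ hl.2.2.2.1 w hw
  | shift l K z p α β h ih =>
    exact ind_shift (ih hl.1) α β

end basics

end H450Iv
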