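import Mathlib
import Pool.Agent.H450R2.Iv.Core

/-! Runs in the Hahn series field with prescribed end. -/

set_option autoImplicit false

namespace H450Iv

open IntermediateField

noncomputable section

/-- the order -/
def od (x : L0) : G := x.order

theorem vv_eq {x : L0} (hx : x ≠ 0) : vv x = (od x : WithTop G) := by
  rw [vv, HahnSeries.addVal_apply, od, HahnSeries.order_eq_orderTop_of_ne_zero hx]

theorem od_mul {x y : L0} (hx : x ≠ 0) (hy : y ≠ 0) : od (x * y) = od x + od y :=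
  HahnSeries.order_mul hx hy

theorem od_one : od 1 = 0 := by
  rw [od]; simp

theorem od_inv {x : L0} (hx : x ≠ 0) : od x⁻¹ = - od x := by
  have h := od_mul hx (inv_ne_zero hx)
  rw [mul_inv_cancel₀ hx, od_one] at h
  exact (neg_eq_of_add_eq_zero_right h.symm).symm

theorem od_pow {x : L0} (n : ℕ) : od (x ^ n) = n • od x := HahnSeries.order_pow x n

theorem od_zpow {x : L0} (hx : x ≠ 0) (n : ℤ) : od (x ^ n) = n • od x := by
  obtain ⟨k, rfl | rfl⟩ := n.eq_nat_or_neg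
  · rw [zpow_natCast, od_pow, natCast_zsmul]
  · rw [zpow_neg, zpow_natCast, od_inv (pow_ne_zero _ hx), od_pow, neg_zsmul, natCast_zsmul]

theorem od_C {a : ℂ} (ha : a ≠ 0) : od (algebraMap ℂ L0 a) = 0 := by
  have h0 : algebraMap ℂ L0 a ≠ 0 := (map_ne_zero _).2 ha
  have h := vv_C ha
  rw [vv_eq h0] at h
  exact_mod_cast h

theorem od_neg (x : L0) : od (-x) = od x := by
  rw [od, HahnSeries.order_neg]; rfl

/-- dominant term -/
theorem od_add {x y : L0} (hx : x ≠ 0) (h : y = 0 ∨ od x < od y) :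
    x + y ≠ 0 ∧ od (x + y) = od x := by
  have h1 : vv x < vv y := by
    by_cases hy : y = 0
    · rw [hy, (AddValuation.top_iff vv).2 rfl, vv_eq hx]
      exact WithTop.coe_lt_top _
    · rcases h with h | h
      · exact absurd h hy
      · rw [vv_eq hx, vv_eq hy]; exact_mod_cast h
  have h2 := AddValuation.map_add_eq_of_lt_left vv h1
  have h3 : x + y ≠ 0 := by
    intro h0
    rw [h0, (AddValuation.top_iff vv).2 rfl, vv_eq hx] at h2
    exact WithTop.top_ne_coe h2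
  refine ⟨h3, ?_⟩
  rw [vv_eq h3, vv_eq hx] at h2
  exact_mod_cast h2

theorem nsq (r : ℝ) : (algebraMap ℂ L0 ((r : ℂ) ^ 2)) = (algebraMap ℂ L0 (r : ℂ)) ^ 2 := map_pow _ _ _

/-- the two square roots at a pole of `p` -/
theorem root_choice (r : ℝ) (hr : 0 < r) (p : L0) (hp : p ≠ 0) (hpn : od p < 0) :
    (∃ w : L0, w ^ 2 = algebraMap ℂ L0 ((r : ℂ) ^ 2) - p ^ 2 ∧ od (gg r w p) = od p) ∧
    (∃ w : L0, w ^ 2 = algebraMap ℂ L0 ((r : ℂ) ^ 2) - p ^ 2 ∧ od (gg r w p) = - od p) := by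
  have hrc : (r : ℂ) ≠ 0 := by exact_mod_cast hr.ne'
  have hr0 : algebraMap ℂ L0 (r : ℂ) ≠ 0 := (map_ne_zero _).2 hrc
  have hri : algebraMap ℂ L0 ((r : ℂ)⁻¹) ≠ 0 := (map_ne_zero _).2 (inv_ne_zero hrc)
  have hI0 : algebraMap ℂ L0 Complex.I ≠ 0 := (map_ne_zero _).2 Complex.I_ne_zero
  have hI := I_sq (M := L0)
  set x : L0 := -(algebraMap ℂ L0 (r : ℂ) * p⁻¹) ^ 2 with hx
  have hx0 : x ≠ 0 := neg_ne_zero.2 (pow_ne_zero _ (mul_ne_zero hr0 (inv_ne_zero hp)))
  have hxo : od x = -(od p + od p) := by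
    rw [hx, od_neg, od_pow, od_mul hr0 (inv_ne_zero hp), od_C hrc, od_inv hp, zero_add, two_nsmul]
    abel
  have hxv : 0 < vv x := by
    rw [vv_eq hx0, hxo]
    have : (0 : G) < -(od p + od p) := by
      rw [neg_pos]; exact add_neg hpn hpn
    exact_mod_cast this
  obtain ⟨h, hh, hh1⟩ := sqrt_exists x hxv
  have h2 : (2 : L0) = algebraMap ℂ L0 2 := (map_ofNat _ 2).symm
  have h2ne : (2 : L0) ≠ 0 := by rw [h2]; exact (map_ne_zero _).2 two_ne_zero
  have hplus : h + 1 ≠ 0 ∧ od (h + 1) = 0 := by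
    have e1 : h + 1 = 2 + (h - 1) := by ring
    have h3 : h - 1 = 0 ∨ od (2 : L0) < od (h - 1) := by
      by_cases h4 : h - 1 = 0
      · exact Or.inl h4
      · right
        rw [vv_eq h4] at hh1
        rw [h2, od_C two_ne_zero]
        exact_mod_cast hh1
    have h5 := od_add h2ne h3
    rw [e1]
    refine ⟨h5.1, ?_⟩
    rw [h5.2, h2, od_C two_ne_zero]
  have hsq : (algebraMap ℂ L0 Complex.I * p * h) ^ 2 = algebraMap ℂ L0 ((r : ℂ) ^ 2) - p ^ 2 := by
    rw [mul_pow, mul_pow, hI, hh, hx, nsq]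
    field_simp
    ring
  refine ⟨⟨algebraMap ℂ L0 Complex.I * p * h, hsq, ?_⟩,
    ⟨-(algebraMap ℂ L0 Complex.I * p * h), by rw [← hsq]; ring, ?_⟩⟩
  · have e1 : gg r (algebraMap ℂ L0 Complex.I * p * h) p =
        algebraMap ℂ L0 Complex.I * p * (h + 1) * algebraMap ℂ L0 ((r : ℂ)⁻¹) := by
      unfold gg; ring
    rw [e1, od_mul (mul_ne_zero (mul_ne_zero hI0 hp) hplus.1) hri,
      od_mul (mul_ne_zero hI0 hp) hplus.1, od_mul hI0 hp, od_C Complex.I_ne_zero, hplus.2,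
      od_C (inv_ne_zero hrc)]
    simp
  · set w : L0 := -(algebraMap ℂ L0 Complex.I * p * h) with hw
    have hw2 : w ^ 2 = algebraMap ℂ L0 ((r : ℂ) ^ 2) - p ^ 2 := by rw [hw, ← hsq]; ring
    have hmul := gg_mul r hr w p hw2
    have hgn := gg_ne r hr w p hw2
    have e1 : (w - algebraMap ℂ L0 Complex.I * p) * algebraMap ℂ L0 ((r : ℂ)⁻¹) =
        -(algebraMap ℂ L0 Complex.I * p * (h + 1) * algebraMap ℂ L0 ((r : ℂ)⁻¹)) := by
      rw [hw]; ring
    have e2 : od ((w - algebraMap ℂ L0 Complex.I * p) * algebraMap ℂ L0 ((r : ℂ)⁻¹)) = od p := by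
      rw [e1, od_neg, od_mul (mul_ne_zero (mul_ne_zero hI0 hp) hplus.1) hri,
        od_mul (mul_ne_zero hI0 hp) hplus.1, od_mul hI0 hp, od_C Complex.I_ne_zero, hplus.2,
        od_C (inv_ne_zero hrc)]
      simp
    have e3 : (w - algebraMap ℂ L0 Complex.I * p) * algebraMap ℂ L0 ((r : ℂ)⁻¹) ≠ 0 := by
      intro h0; rw [h0, mul_zero] at hmul; exact zero_ne_one hmul
    have e4 := od_mul hgn e3
    rw [hmul, od_one, e2] at e4
    exact eq_neg_of_add_eq_zero_left e4.symm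

/-- undoing a hit -/
theorem unhit (z : L0) (g : L0) (hg : g ≠ 0) (κ : ℂ) (hκ : κ ≠ 0) (e : ℤ) :
    algebraMap ℂ L0 κ * (z * g ^ (-(2 * e)) * algebraMap ℂ L0 κ⁻¹) * g ^ (2 * e) = z := by
  have h1 : algebraMap ℂ L0 κ * algebraMap ℂ L0 κ⁻¹ = 1 := by
    rw [← map_mul, mul_inv_cancel₀ hκ, map_one]
  calc _ = z * (g ^ (-(2 * e)) * g ^ (2 * e)) * (algebraMap ℂ L0 κ * algebraMap ℂ L0 κ⁻¹) := by ring
    _ = z := by rw [h1, ← zpow_add₀ hg]; simp

theorem ind_unhit {z p : L0} (h : Ind z p) (r : ℝ) (hr : 0 < r) (e : ℤ) (κ : ℂ) (hκ : κ ≠ 0)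
    (w : L0) (hw : w ^ 2 = algebraMap ℂ L0 ((r : ℂ) ^ 2) - p ^ 2) :
    Ind (z * (gg r w p) ^ (-(2 * e)) * algebraMap ℂ L0 κ⁻¹) p := by
  have h1 := ind_hit h r hr (-(2 * e)) κ⁻¹ (inv_ne_zero hκ) w hw
  have e1 : z * (gg r w p) ^ (-(2 * e)) * algebraMap ℂ L0 κ⁻¹ =
    algebraMap ℂ L0 κ⁻¹ * z * (gg r w p) ^ (-(2 * e)) := by ring
  rw [e1]; exact h1

/-- Stage B -/
theorem stageB (l : List Step) : WF l → ∀ z p : L0, Ind z p → od z ≤ od p → od p < 0 →
    (headShift l → od z < od p) →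
    ∃ (z0 p0 : L0) (K : IntermediateField ℂ L0), Ind z0 p0 ∧ Run z0 p0 l K z p := by
  induction l with
  | nil => intro _ z p h _ _ _; exact ⟨z, p, _, h, Run.nil⟩
  | cons s l ih =>
    intro hl z p h hzp hp hs
    have hz0 := ind_ne_zero h
    have hp0 := ind_ne_zero (ind_symm h)
    cases s with
    | hit r e κ =>
      obtain ⟨hl', hr, he, hκ, hrt⟩ := hl
      obtain ⟨⟨w1, hw1, ho1⟩, ⟨w2, hw2, ho2⟩⟩ := root_choice r hr p hp0 hp
      have key : ∃ w : L0, w ^ 2 = algebraMap ℂ L0 ((r : ℂ) ^ 2) - p ^ 2 ∧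
          (-(2 * e)) • od (gg r w p) < 0 := by
        rcases lt_or_gt_of_ne he with he | he
        · refine ⟨w1, hw1, ?_⟩
          rw [ho1, ← neg_pos, ← zsmul_neg]
          exact zsmul_pos (neg_pos.2 hp) (by omega)
        · refine ⟨w2, hw2, ?_⟩
          rw [ho2, ← neg_pos, ← neg_zsmul]
          exact zsmul_pos (neg_pos.2 hp) (by omega)
      obtain ⟨w, hw, hlt⟩ := key
      have hg := gg_ne r hr w p hw
      set z' := z * (gg r w p) ^ (-(2 * e)) * algebraMap ℂ L0 κ⁻¹ with hz'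
      have hoz' : od z' = od z + (-(2 * e)) • od (gg r w p) := by
        rw [hz', od_mul (mul_ne_zero hz0 (zpow_ne_zero _ hg)) ((map_ne_zero _).2 (inv_ne_zero hκ)),
          od_mul hz0 (zpow_ne_zero _ hg), od_zpow hg, od_C (inv_ne_zero hκ), add_zero]
      have hlt' : od z' < od p := by
        rw [hoz']
        calc od z + (-(2 * e)) • od (gg r w p) < od z + 0 := by gcongr
          _ = od z := add_zero _
          _ ≤ od p := hzp
      obtain ⟨z0, p0, K, hi, hrun⟩ := ih hl' z' p (ind_unhit h r hr e κ hκ w hw) hlt'.le hp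
        (fun _ => hlt')
      refine ⟨z0, p0, ext1 K w, hi, ?_⟩
      have := Run.hit l K z' p r e κ w hrun hw
      rw [hz', unhit z (gg r w p) hg κ hκ e] at this
      exact this
    | shift α β =>
      obtain ⟨hl', hα, hβ, hns⟩ := hl
      have hlt := hs trivial
      have hα0 : algebraMap ℂ L0 (-α) ≠ 0 := (map_ne_zero _).2 (neg_ne_zero.2 hα)
      have hβ0 : algebraMap ℂ L0 (-β) ≠ 0 := (map_ne_zero _).2 (neg_ne_zero.2 hβ)
      set p' := p + algebraMap ℂ L0 (-α) * z + algebraMap ℂ L0 (-β) * z⁻¹ with hp'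
      have h1 : od (algebraMap ℂ L0 (-α) * z) = od z := by
        rw [od_mul hα0 hz0, od_C (neg_ne_zero.2 hα), zero_add]
      have h2 := od_add (x := algebraMap ℂ L0 (-α) * z) (y := p) (mul_ne_zero hα0 hz0)
        (Or.inr (by rw [h1]; exact hlt))
      have h3 : od (algebraMap ℂ L0 (-β) * z⁻¹) = - od z := by
        rw [od_mul hβ0 (inv_ne_zero hz0), od_C (neg_ne_zero.2 hβ), zero_add, od_inv hz0]
      have hz0' : od z < 0 := lt_of_le_of_lt hzp hp
      have h4 := od_add (x := algebraMap ℂ L0 (-α) * z + p) (y := algebraMap ℂ L0 (-β) * z⁻¹) h2.1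
        (Or.inr (by rw [h2.2, h1, h3]; exact lt_trans hz0' (neg_pos.2 hz0')))
      have h5 : p' = (algebraMap ℂ L0 (-α) * z + p) + algebraMap ℂ L0 (-β) * z⁻¹ := by
        rw [hp']; ring
      have h6 : od p' = od z := by rw [h5, h4.2, h2.2, h1]
      obtain ⟨z0, p0, K, hi, hrun⟩ := ih hl' z p' (ind_shift h (-α) (-β)) (by rw [h6])
        (by rw [h6]; exact hz0') (fun hh => absurd hh hns)
      refine ⟨z0, p0, K, hi, ?_⟩
      have := Run.shift l K z p' α β hrun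
      have e1 : p' + algebraMap ℂ L0 α * z + algebraMap ℂ L0 β * z⁻¹ = p := by
        rw [hp', map_neg, map_neg]; ring
      rw [e1] at this
      exact this

end

end H450Iv
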