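import Mathlib
import Pool.Agent.H450R2.Iv.Growth

/-! The tower is maximal; consequences. -/

set_option autoImplicit false

namespace H450Iv

open IntermediateField

noncomputable section

theorem tt_ne : tt ≠ 0 := by
  intro h
  have := vv_tt
  rw [h, (AddValuation.top_iff vv).2 rfl] at this
  exact WithTop.top_ne_coe this

theorem zz_ne : zz ≠ 0 := by
  intro h
  have := vv_zz
  rw [h, (AddValuation.top_iff vv).2 rfl] at this
  exact WithTop.top_ne_coe this

theorem od_tt_pos : 0 < od tt := by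
  have := vv_tt_pos
  rw [vv_eq tt_ne] at this
  exact_mod_cast this

theorem od_zz_neg : od zz < 0 := by
  have := vv_zz_neg
  rw [vv_eq zz_ne] at this
  exact_mod_cast this

/-- root of `r'^2 - (r+t)^2`, order of `g` is zero -/
theorem root_const (r r' : ℝ) (hr : 0 < r) (hr' : 0 < r') (hne : r' ≠ r) :
    ∃ w : L0, w ^ 2 = algebraMap ℂ L0 ((r' : ℂ) ^ 2) - (algebraMap ℂ L0 (r : ℂ) + tt) ^ 2 ∧
      od (gg r' w (algebraMap ℂ L0 (r : ℂ) + tt)) = 0 := by
  set p : L0 := algebraMap ℂ L0 (r : ℂ) + tt with hp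
  have hd : (r' : ℂ) ^ 2 - (r : ℂ) ^ 2 ≠ 0 := by
    have : (r' ^ 2 - r ^ 2 : ℝ) ≠ 0 := by
      intro h
      have h2 : (r' - r) * (r' + r) = 0 := by ring_nf; linarith
      rcases mul_eq_zero.1 h2 with h3 | h3
      · exact hne (by linarith)
      · linarith
    exact_mod_cast this
  set d : ℂ := (r' : ℂ) ^ 2 - (r : ℂ) ^ 2 with hdd
  obtain ⟨c, hc⟩ := IsAlgClosed.exists_pow_nat_eq d (n := 2) (by norm_num)
  have hc0 : c ≠ 0 := by rintro rfl; apply hd; rw [← hc]; norm_num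
  have h2r : (2 * (r : ℂ)) ≠ 0 := by
    have : (r : ℂ) ≠ 0 := by exact_mod_cast hr.ne'
    simp [this]
  have h2r0 : algebraMap ℂ L0 (2 * (r : ℂ)) ≠ 0 := (map_ne_zero _).2 h2r
  have hs := od_add (x := algebraMap ℂ L0 (2 * (r : ℂ))) (y := tt) h2r0
    (Or.inr (by rw [od_C h2r]; exact od_tt_pos))
  set x : L0 := -(tt * (algebraMap ℂ L0 (2 * (r : ℂ)) + tt)) * algebraMap ℂ L0 d⁻¹ with hx
  have hdi0 : algebraMap ℂ L0 d⁻¹ ≠ 0 := (map_ne_zero _).2 (inv_ne_zero hd)
  have hx0 : x ≠ 0 := mul_ne_zero (neg_ne_zero.2 (mul_ne_zero tt_ne hs.1)) hdi0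
  have hxo : od x = od tt := by
    rw [hx, od_mul (neg_ne_zero.2 (mul_ne_zero tt_ne hs.1)) hdi0, od_neg, od_mul tt_ne hs.1, hs.2,
      od_C h2r, od_C (inv_ne_zero hd)]
    simp
  have hxv : 0 < vv x := by
    rw [vv_eq hx0, hxo]; exact_mod_cast od_tt_pos
  obtain ⟨h, hh, hh1⟩ := sqrt_exists x hxv
  have hcc : algebraMap ℂ L0 c ^ 2 = algebraMap ℂ L0 d := by rw [← map_pow, hc]
  have hw : (algebraMap ℂ L0 c * h) ^ 2 =
      algebraMap ℂ L0 ((r' : ℂ) ^ 2) - p ^ 2 := by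
    rw [mul_pow, hh, hcc, mul_add, mul_one, hx]
    have e1 : algebraMap ℂ L0 d * algebraMap ℂ L0 d⁻¹ = 1 := by
      rw [← map_mul, mul_inv_cancel₀ hd, map_one]
    have e2 : algebraMap ℂ L0 d * (-(tt * (algebraMap ℂ L0 (2 * (r : ℂ)) + tt)) *
        algebraMap ℂ L0 d⁻¹) = -(tt * (algebraMap ℂ L0 (2 * (r : ℂ)) + tt)) *
        (algebraMap ℂ L0 d * algebraMap ℂ L0 d⁻¹) := by ring
    rw [e2, e1, hdd, map_sub, hp, map_mul, map_ofNat, nsq, nsq]
    ring
  refine ⟨algebraMap ℂ L0 c * h, hw, ?_⟩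
  -- valuations are nonnegative
  have hh0 : h ≠ 0 := by
    rintro rfl
    have : (0 : L0) - 1 = -1 := by ring
    rw [this, AddValuation.map_neg, AddValuation.map_one] at hh1
    exact lt_irrefl _ hh1
  have hoh : 0 ≤ vv h := by
    have e1 : h = 1 + (h - 1) := by ring
    rw [e1]
    refine le_trans ?_ (AddValuation.map_add vv _ _)
    rw [AddValuation.map_one]
    exact le_min le_rfl hh1.le
  have hvw : 0 ≤ vv (algebraMap ℂ L0 c * h) := by
    rw [AddValuation.map_mul, vv_C hc0, zero_add]; exact hoh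
  have hrc : (r : ℂ) ≠ 0 := by exact_mod_cast hr.ne'
  have hvp : 0 ≤ vv p := by
    rw [hp]
    refine le_trans ?_ (AddValuation.map_add vv _ _)
    rw [vv_C hrc]
    exact le_min le_rfl vv_tt_pos.le
  have hvIp : 0 ≤ vv (algebraMap ℂ L0 Complex.I * p) := by
    rw [AddValuation.map_mul, vv_C Complex.I_ne_zero, zero_add]; exact hvp
  have hrc' : (r' : ℂ) ≠ 0 := by exact_mod_cast hr'.ne'
  have hmul := gg_mul r' hr' _ p hw
  have hgn := gg_ne r' hr' _ p hw
  have hg0 : 0 ≤ vv (gg r' (algebraMap ℂ L0 c * h) p) := by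
    unfold gg
    rw [AddValuation.map_mul, vv_C (inv_ne_zero hrc'), add_zero]
    exact le_trans (le_min hvw hvIp) (AddValuation.map_add vv _ _)
  have hg1 : 0 ≤ vv ((algebraMap ℂ L0 c * h - algebraMap ℂ L0 Complex.I * p) *
      algebraMap ℂ L0 ((r' : ℂ)⁻¹)) := by
    rw [AddValuation.map_mul, vv_C (inv_ne_zero hrc'), add_zero]
    exact le_trans (le_min hvw hvIp) (AddValuation.map_sub vv _ _)
  have hn1 : (algebraMap ℂ L0 c * h - algebraMap ℂ L0 Complex.I * p) *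
      algebraMap ℂ L0 ((r' : ℂ)⁻¹) ≠ 0 := by
    intro h0; rw [h0, mul_zero] at hmul; exact zero_ne_one hmul
  rw [vv_eq hgn] at hg0
  rw [vv_eq hn1] at hg1
  have hg0' : 0 ≤ od (gg r' (algebraMap ℂ L0 c * h) p) := by exact_mod_cast hg0
  have hg1' : 0 ≤ od ((algebraMap ℂ L0 c * h - algebraMap ℂ L0 Complex.I * p) *
      algebraMap ℂ L0 ((r' : ℂ)⁻¹)) := by exact_mod_cast hg1
  have hsum := od_mul hgn hn1
  rw [hmul, od_one] at hsum
  exact ((add_eq_zero_iff_of_nonneg hg0' hg1').1 hsum.symm).1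

/-- Stage A -/
theorem stageA (r : ℝ) (hr : 0 < r) (l : List Step) : WF l → r ∉ trail l → ∀ z : L0,
    Ind z (algebraMap ℂ L0 (r : ℂ) + tt) → od z < 0 →
    ∃ (z0 p0 : L0) (K : IntermediateField ℂ L0), Ind z0 p0 ∧
      Run z0 p0 l K z (algebraMap ℂ L0 (r : ℂ) + tt) := by
  induction l with
  | nil => intro _ _ z h _; exact ⟨z, _, _, h, Run.nil⟩
  | cons s l ih =>
    intro hl hrt z h hz
    have hz0 := ind_ne_zero h
    have hrc : (r : ℂ) ≠ 0 := by exact_mod_cast hr.ne'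
    cases s with
    | hit r' e κ =>
      obtain ⟨hl', hr', he, hκ, hrt'⟩ := hl
      have hne : r' ≠ r := by
        rintro rfl
        exact hrt (by simp [trail])
      obtain ⟨w, hw, hg⟩ := root_const r r' hr hr' hne
      have hgn := gg_ne r' hr' w _ hw
      set p : L0 := algebraMap ℂ L0 (r : ℂ) + tt with hp
      set z' := z * (gg r' w p) ^ (-(2 * e)) * algebraMap ℂ L0 κ⁻¹ with hz'
      have hoz' : od z' = od z := by
        rw [hz', od_mul (mul_ne_zero hz0 (zpow_ne_zero _ hgn)) ((map_ne_zero _).2 (inv_ne_zero hκ)),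
          od_mul hz0 (zpow_ne_zero _ hgn), od_zpow hgn, od_C (inv_ne_zero hκ), add_zero, hg,
          zsmul_zero, add_zero]
      obtain ⟨z0, p0, K, hi, hrun⟩ := ih hl' (by
        intro hh; exact hrt (by simp [trail, hh])) z' (ind_unhit h r' hr' e κ hκ w hw)
        (by rw [hoz']; exact hz)
      refine ⟨z0, p0, ext1 K w, hi, ?_⟩
      have := Run.hit l K z' p r' e κ w hrun hw
      rw [hz', unhit z (gg r' w p) hgn κ hκ e] at this
      exact this
    | shift α β =>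
      obtain ⟨hl', hα, hβ, hns⟩ := hl
      set p : L0 := algebraMap ℂ L0 (r : ℂ) + tt with hp
      have hα0 : algebraMap ℂ L0 (-α) ≠ 0 := (map_ne_zero _).2 (neg_ne_zero.2 hα)
      have hβ0 : algebraMap ℂ L0 (-β) ≠ 0 := (map_ne_zero _).2 (neg_ne_zero.2 hβ)
      have hpo := od_add (x := algebraMap ℂ L0 (r : ℂ)) (y := tt) ((map_ne_zero _).2 hrc)
        (Or.inr (by rw [od_C hrc]; exact od_tt_pos))
      rw [od_C hrc, ← hp] at hpo
      set p' := p + algebraMap ℂ L0 (-α) * z + algebraMap ℂ L0 (-β) * z⁻¹ with hp'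
      have h1 : od (algebraMap ℂ L0 (-α) * z) = od z := by
        rw [od_mul hα0 hz0, od_C (neg_ne_zero.2 hα), zero_add]
      have h2 := od_add (x := algebraMap ℂ L0 (-α) * z) (y := p) (mul_ne_zero hα0 hz0)
        (Or.inr (by rw [h1, hpo.2]; exact hz))
      have h3 : od (algebraMap ℂ L0 (-β) * z⁻¹) = - od z := by
        rw [od_mul hβ0 (inv_ne_zero hz0), od_C (neg_ne_zero.2 hβ), zero_add, od_inv hz0]
      have h4 := od_add (x := algebraMap ℂ L0 (-α) * z + p) (y := algebraMap ℂ L0 (-β) * z⁻¹) h2.1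
        (Or.inr (by rw [h2.2, h1, h3]; exact lt_trans hz (neg_pos.2 hz)))
      have h5 : p' = (algebraMap ℂ L0 (-α) * z + p) + algebraMap ℂ L0 (-β) * z⁻¹ := by
        rw [hp']; ring
      have h6 : od p' = od z := by rw [h5, h4.2, h2.2, h1]
      obtain ⟨z0, p0, K, hi, hrun⟩ := stageB l hl' z p' (ind_shift h (-α) (-β)) (by rw [h6])
        (by rw [h6]; exact hz) (fun hh => absurd hh hns)
      refine ⟨z0, p0, K, hi, ?_⟩
      have := Run.shift l K z p' α β hrun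
      have e1 : p' + algebraMap ℂ L0 α * z + algebraMap ℂ L0 β * z⁻¹ = p := by
        rw [hp', map_neg, map_neg]; ring
      rw [e1] at this
      exact this

/-- the special runs -/
theorem special (r : ℝ) (hr : 0 < r) (l : List Step) (hl : WF l) (hrt : r ∉ trail l) :
    ∃ (z0 p0 z : L0) (K : IntermediateField ℂ L0), Ind z0 p0 ∧
      Run z0 p0 l K z (algebraMap ℂ L0 (r : ℂ) + tt) := by
  have h1 : Ind zz tt := ind_zz_tt
  have h2 : Ind zz (algebraMap ℂ L0 (r : ℂ) + tt) := by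
    rw [add_comm]
    exact ind_add h1 _ (IntermediateField.algebraMap_mem _ _)
  obtain ⟨z0, p0, K, hi, hrun⟩ := stageA r hr l hl hrt zz h2 od_zz_neg
  exact ⟨z0, p0, zz, K, hi, hrun⟩

/-- base homomorphism -/
theorem base_hom {M L : Type*} [Field M] [Algebra ℂ M] [Field L] [Algebra ℂ L]
    {z p : M} (h : Ind z p) {z' p' : L} (h' : Ind z' p') :
    ∃ ψ : (adjoin ℂ ({z, p} : Set M)) →ₐ[ℂ] L,
      ψ ⟨z, subset_adjoin ℂ _ (by simp)⟩ = z' ∧ ψ ⟨p, subset_adjoin ℂ _ (by simp)⟩ = p' := by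
  have hle : adjoin ℂ ({z, p} : Set M) ≤ adjoin ℂ (Set.range ![z, p]) := by
    apply adjoin.mono
    intro x hx
    rcases hx with rfl | hx
    · exact ⟨0, rfl⟩
    · exact ⟨1, by simpa using hx.symm⟩
  let e1 := AlgebraicIndependent.aevalEquivField h
  let e2 := AlgebraicIndependent.aevalEquivField h'
  let ψ : (adjoin ℂ ({z, p} : Set M)) →ₐ[ℂ] L :=
    ((adjoin ℂ (Set.range ![z', p'])).val.comp (e2.toAlgHom.comp e1.symm.toAlgHom)).comp
      (IntermediateField.inclusion hle)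
  have key : ∀ i : Fin 2, ∀ (hi : ![z, p] i ∈ adjoin ℂ ({z, p} : Set M)),
      ψ ⟨![z, p] i, hi⟩ = ![z', p'] i := by
    intro i hi
    have h1 : e1 (algebraMap (MvPolynomial (Fin 2) ℂ) (FractionRing (MvPolynomial (Fin 2) ℂ))
        (MvPolynomial.X i)) = ⟨![z, p] i, hle hi⟩ := by
      apply Subtype.ext
      refine (AlgebraicIndependent.aevalEquivField_algebraMap_apply_coe h _).trans ?_
      exact MvPolynomial.aeval_X _ _
    have h2 : e1.symm ⟨![z, p] i, hle hi⟩ = algebraMap (MvPolynomial (Fin 2) ℂ)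
        (FractionRing (MvPolynomial (Fin 2) ℂ)) (MvPolynomial.X i) := by
      rw [← h1, AlgEquiv.symm_apply_apply]
    change ((e2 (e1.symm ⟨![z, p] i, hle hi⟩) : adjoin ℂ (Set.range ![z', p'])) : L) = _
    rw [h2]
    refine (AlgebraicIndependent.aevalEquivField_algebraMap_apply_coe h' _).trans ?_
    exact MvPolynomial.aeval_X _ _
  exact ⟨ψ, key 0 _, key 1 _⟩

theorem gg_map {M L : Type*} [Field M] [Algebra ℂ M] [Field L] [Algebra ℂ L] (ψ : M →ₐ[ℂ] L)
    (r : ℝ) (w p : M) : ψ (gg r w p) = gg r (ψ w) (ψ p) := by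
  unfold gg
  simp only [map_mul, map_add, AlgHom.commutes]

theorem gg_coe {M : Type*} [Field M] [Algebra ℂ M] (K : IntermediateField ℂ M)
    (r : ℝ) (w p : K) : ((gg r w p : K) : M) = gg r (w : M) (p : M) := gg_map K.val r w p

theorem coe_zpow2 {M : Type*} [Field M] [Algebra ℂ M] (K : IntermediateField ℂ M)
    (x : K) (n : ℤ) : ((x ^ n : K) : M) = (x : M) ^ n := map_zpow₀ K.val x n

/-- Main transfer theorem: any two runs of the same program are conjugate -/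
theorem transfer (l : List Step) : WF l → ∀ {M : Type} [Field M] [Algebra ℂ M]
    {L : Type} [Field L] [Algebra ℂ L] (z0 p0 : M) (K : IntermediateField ℂ M) (z p : M)
    (_ : Ind z0 p0) (hrun : Run z0 p0 l K z p)
    (z0' p0' : L) (K' : IntermediateField ℂ L) (z' p' : L) (_ : Ind z0' p0')
    (_ : Run z0' p0' l K' z' p'),
    ∃ ψ : K →ₐ[ℂ] L, ψ ⟨z, (run_mem hrun).1⟩ = z' ∧ ψ ⟨p, (run_mem hrun).2⟩ = p' := by
  induction l with
  | nil =>
    intro _ M _ _ L _ _ z0 p0 K z p h0 hrun z0' p0' K' z' p' h0' hrun'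
    cases hrun
    cases hrun'
    exact base_hom h0 h0'
  | cons s l ih =>
    intro hl M _ _ L _ _ z0 p0 K z p h0 hrun z0' p0' K' z' p' h0' hrun'
    cases s with
    | hit r e κ =>
      obtain ⟨hl', hr, he, hκ, hrt⟩ := hl
      have hrun2 := hrun
      cases hrun with
      | hit _ K1 z1 _ _ _ _ w hr1 hw =>
      cases hrun' with
      | hit _ K1' z1' _ _ _ _ w' hr1' hw' =>
      obtain ⟨ψ1, hz1, hp1⟩ := ih hl' z0 p0 K1 z1 p h0 hr1 z0' p0' K1' z1' p' h0' hr1'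
      have hm := run_mem hr1
      have hwK : w ∉ K1 := by
        intro hwK
        obtain ⟨y0, q0, y, Ks, hi, hrs⟩ := special r hr l hl' hrt
        obtain ⟨ψ0, _, hp0⟩ := ih hl' z0 p0 K1 z1 p h0 hr1 y0 q0 Ks y _ hi hrs
        have hrc : (r : ℂ) ≠ 0 := by exact_mod_cast hr.ne'
        apply nonsquare (r : ℂ) hrc (ψ0 ⟨w, hwK⟩)
        rw [← map_pow]
        have e1 : (⟨w, hwK⟩ : K1) ^ 2 = algebraMap ℂ K1 ((r : ℂ) ^ 2) - ⟨p, hm.2⟩ ^ 2 := by
          apply Subtype.ext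
          simp only [SubmonoidClass.mk_pow, AddSubgroupClass.coe_sub]
          exact hw
        rw [e1, map_sub, AlgHom.commutes, map_pow ψ0, hp0, nsq]
      have hf : algebraMap ℂ M ((r : ℂ) ^ 2) - p ^ 2 ∈ K1 :=
        sub_mem (IntermediateField.algebraMap_mem _ _) (pow_mem hm.2 2)
      obtain ⟨ψ2, hψ2, hψw⟩ := extend_hom K1 ψ1 w _ hf hw hwK w' (by
        rw [hw']
        have e1 : (⟨algebraMap ℂ M ((r : ℂ) ^ 2) - p ^ 2, hf⟩ : K1) =
            algebraMap ℂ K1 ((r : ℂ) ^ 2) - ⟨p, hm.2⟩ ^ 2 := rfl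
        rw [e1, map_sub, AlgHom.commutes, map_pow ψ1, hp1])
      refine ⟨ψ2, ?_, ?_⟩
      · have e1 : (⟨algebraMap ℂ M κ * z1 * gg r w p ^ (2 * e), (run_mem hrun2).1⟩ : ext1 K1 w) =
            algebraMap ℂ (ext1 K1 w) κ * ⟨z1, le_ext1 K1 w hm.1⟩ *
              (gg r (⟨w, mem_ext1 K1 w⟩ : ext1 K1 w) ⟨p, le_ext1 K1 w hm.2⟩) ^ (2 * e) := by
          apply Subtype.ext
          rw [MulMemClass.coe_mul, MulMemClass.coe_mul, coe_zpow2, gg_coe]
          rfl
        rw [e1, map_mul, map_mul, AlgHom.commutes, map_zpow₀, gg_map,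
          hψ2 z1 hm.1, hψ2 p hm.2, hψw, hz1, hp1]
      · rw [hψ2 p hm.2, hp1]
    | shift α β =>
      obtain ⟨hl', hα, hβ, hns⟩ := hl
      have hrun2 := hrun
      cases hrun with
      | shift _ _ _ p1 _ _ hr1 =>
      cases hrun' with
      | shift _ _ _ p1' _ _ hr1' =>
      obtain ⟨ψ1, hz1, hp1⟩ := ih hl' z0 p0 K z p1 h0 hr1 z0' p0' K' z' p1' h0' hr1'
      have hm := run_mem hr1
      refine ⟨ψ1, hz1, ?_⟩
      have e1 : (⟨p1 + algebraMap ℂ M α * z + algebraMap ℂ M β * z⁻¹, (run_mem hrun2).2⟩ : K) =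
          ⟨p1, hm.2⟩ + algebraMap ℂ K α * ⟨z, hm.1⟩ + algebraMap ℂ K β * (⟨z, hm.1⟩ : K)⁻¹ := by
        apply Subtype.ext
        rfl
      rw [e1, map_add, map_add, map_mul, map_mul, AlgHom.commutes, AlgHom.commutes, map_inv₀,
        hz1, hp1]

end

end H450Iv
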