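import Mathlib
import Pool.Agent.H450R2.Iv.Tower

/-! No nonempty program is an isometry. -/

set_option autoImplicit false

namespace H450Iv

open IntermediateField

noncomputable section

theorem w_not_mem {M : Type} [Field M] [Algebra ℂ M] (l : List Step) (hl : WF l)
    (z0 p0 : M) (h0 : Ind z0 p0) (K : IntermediateField ℂ M) (z p : M)
    (hrun : Run z0 p0 l K z p) (r : ℝ) (hr : 0 < r) (hrt : r ∉ trail l) (w : M)
    (hw : w ^ 2 = algebraMap ℂ M ((r : ℂ) ^ 2) - p ^ 2) : w ∉ K := by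
  intro hwK
  obtain ⟨y0, q0, y, Ks, hi, hrs⟩ := special r hr l hl hrt
  obtain ⟨ψ0, _, hp0⟩ := transfer l hl z0 p0 K z p h0 hrun y0 q0 Ks y _ hi hrs
  have hrc : (r : ℂ) ≠ 0 := by exact_mod_cast hr.ne'
  apply nonsquare (r : ℂ) hrc (ψ0 ⟨w, hwK⟩)
  rw [← map_pow]
  have e1 : (⟨w, hwK⟩ : K) ^ 2 = algebraMap ℂ K ((r : ℂ) ^ 2) - ⟨p, (run_mem hrun).2⟩ ^ 2 := by
    apply Subtype.ext
    simp only [SubmonoidClass.mk_pow, AddSubgroupClass.coe_sub]
    exact hw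
  rw [e1, map_sub, AlgHom.commutes, map_pow ψ0, hp0, nsq]

theorem root_unity_alg {M : Type} [Field M] [Algebra ℂ M] (g : M) (hg : g ≠ 0) (n : ℤ) (hn : n ≠ 0)
    (h : g ^ n = 1) : IsAlgebraic ℂ g := by
  obtain ⟨k, hk | hk⟩ := n.eq_nat_or_neg
  · refine ⟨Polynomial.X ^ k - Polynomial.C 1, Polynomial.X_pow_sub_C_ne_zero (by omega) _, ?_⟩
    rw [hk, zpow_natCast] at h
    simp [h]
  · refine ⟨Polynomial.X ^ k - Polynomial.C 1, Polynomial.X_pow_sub_C_ne_zero (by omega) _, ?_⟩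
    rw [hk, zpow_neg, zpow_natCast, inv_eq_one] at h
    simp [h]

theorem hit_not_mem {M : Type} [Field M] [Algebra ℂ M] (l : List Step)
    (r : ℝ) (e : ℤ) (κ : ℂ) (hl : WF (Step.hit r e κ :: l))
    (z0 p0 : M) (h0 : Ind z0 p0) (K : IntermediateField ℂ M) (z p : M)
    (hrun : Run z0 p0 l K z p) (w : M)
    (hw : w ^ 2 = algebraMap ℂ M ((r : ℂ) ^ 2) - p ^ 2) :
    algebraMap ℂ M κ * z * (gg r w p) ^ (2 * e) ∉ K := by
  obtain ⟨hl', hr, he, hκ, hrt⟩ := hl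
  have hwK := w_not_mem l hl' z0 p0 h0 K z p hrun r hr hrt w hw
  have hm := run_mem hrun
  have hind := run_ind hrun hl' h0
  have hz0 := ind_ne_zero hind
  intro hmem
  have hκ0 : algebraMap ℂ M κ ≠ 0 := (map_ne_zero _).2 hκ
  have hg2 : (gg r w p) ^ (2 * e) ∈ K := by
    have : (gg r w p) ^ (2 * e) = (algebraMap ℂ M κ * z)⁻¹ *
        (algebraMap ℂ M κ * z * (gg r w p) ^ (2 * e)) := by
      rw [inv_mul_cancel_left₀ (mul_ne_zero hκ0 hz0)]
    rw [this]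
    exact mul_mem (inv_mem (mul_mem (IntermediateField.algebraMap_mem _ _) hm.1)) hmem
  have hf : algebraMap ℂ M ((r : ℂ) ^ 2) - p ^ 2 ∈ K :=
    sub_mem (IntermediateField.algebraMap_mem _ _) (pow_mem hm.2 2)
  obtain ⟨ψ2, hψ2, hψw⟩ := extend_hom K K.val w _ hf hw hwK (-w) (by
    rw [neg_sq, hw]; rfl)
  have h1 : ψ2 ⟨(gg r w p) ^ (2 * e), le_ext1 K w hg2⟩ = (gg r w p) ^ (2 * e) := by
    rw [hψ2 _ hg2]; rfl
  have h2 : (⟨(gg r w p) ^ (2 * e), le_ext1 K w hg2⟩ : ext1 K w) =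
      (gg r (⟨w, mem_ext1 K w⟩ : ext1 K w) ⟨p, le_ext1 K w hm.2⟩) ^ (2 * e) := by
    apply Subtype.ext
    rw [coe_zpow2, gg_coe]
  rw [h2, map_zpow₀, gg_map, hψw, hψ2 p hm.2] at h1
  have h3 : K.val ⟨p, hm.2⟩ = p := rfl
  rw [h3] at h1
  have hgn := gg_ne r hr w p hw
  have hgm := gg_mul r hr w p hw
  have h4 : gg r (-w) p = -(gg r w p)⁻¹ := by
    have : (gg r w p)⁻¹ = (w - algebraMap ℂ M Complex.I * p) * algebraMap ℂ M ((r : ℂ)⁻¹) :=
      inv_eq_of_mul_eq_one_right hgm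
    rw [this]
    unfold gg
    ring
  have h5 : (gg r w p) ^ (4 * e) = 1 := by
    have e1 : (-(gg r w p)⁻¹) ^ (2 * e) = (gg r w p) ^ (-(2 * e)) := by
      rw [zpow_mul, Even.neg_zpow (by decide : Even (2 : ℤ)), ← zpow_mul, inv_zpow, zpow_neg]
    rw [h4, e1] at h1
    have e2 : 4 * e = 2 * e + 2 * e := by ring
    rw [e2, zpow_add₀ hgn]
    nth_rewrite 1 [← h1]
    rw [← zpow_add₀ hgn]
    simp
  have h6 := root_unity_alg (gg r w p) hgn (4 * e) (by omega) h5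
  apply ind_transc hind
  have h7 : p = (gg r w p - (gg r w p)⁻¹) * algebraMap ℂ M ((r : ℂ) / (2 * Complex.I)) := by
    have e1 : (gg r w p)⁻¹ = (w - algebraMap ℂ M Complex.I * p) * algebraMap ℂ M ((r : ℂ)⁻¹) :=
      inv_eq_of_mul_eq_one_right hgm
    have hrc : (r : ℂ) ≠ 0 := by exact_mod_cast hr.ne'
    have hI0 := Complex.I_ne_zero
    have e2 : gg r w p - (gg r w p)⁻¹ = p * algebraMap ℂ M (2 * Complex.I * (r : ℂ)⁻¹) := by
      rw [e1, map_mul, map_mul, map_ofNat]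
      unfold gg
      ring
    rw [e2, mul_assoc, ← map_mul]
    have e3 : 2 * Complex.I * (r : ℂ)⁻¹ * ((r : ℂ) / (2 * Complex.I)) = 1 := by
      field_simp
    rw [e3, map_one, mul_one]
  rw [h7]
  exact (h6.sub h6.inv).mul (isAlgebraic_algebraMap _)

end

end H450Iv
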