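import Mathlib
import Pool.Agent.H450R2.Iv.Final

/-! Combinatorics of concentric hits; flushing a block. -/

set_option autoImplicit false

namespace H450Iv

open IntermediateField

/-- transition rule between consecutive concentric hits -/
def Tr (new old : ℝ × ℤ) : Prop :=
  (old.2 = -1 → new.2 = 1 ∧ old.1 < new.1) ∧ (new.2 = -1 → old.2 = 1 ∧ new.1 < old.1)

/-- chains (head is the latest hit) -/
def Ch : List (ℝ × ℤ) → Prop
  | [] => True
  | [_] => True
  | b :: c :: D => Tr b c ∧ Ch (c :: D)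

/-- net exponent -/
noncomputable def net : List (ℝ × ℤ) → ℝ → ℤ
  | [], _ => 0
  | b :: B, r => (if b.1 = r then b.2 else 0) + net B r

theorem bigger (B : List (ℝ × ℤ)) (b0 : ℝ × ℤ) (h : Ch (b0 :: B)) (hB : B ≠ []) :
    ∀ b ∈ b0 :: B, b.2 = -1 → ∃ b' ∈ b0 :: B, b.1 < b'.1 := by
  induction B generalizing b0 with
  | nil => exact absurd rfl hB
  | cons c D ih =>
    intro b hb hs
    rcases List.mem_cons.1 hb with rfl | hb
    · exact ⟨c, by simp, (h.1.2 hs).2⟩
    · by_cases hD : D = []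
      · subst hD
        rw [List.mem_singleton] at hb
        subst hb
        exact ⟨b0, by simp, (h.1.1 hs).2⟩
      · obtain ⟨b', hb', hlt⟩ := ih c h.2 hD b hb hs
        exact ⟨b', List.mem_cons_of_mem _ hb', hlt⟩

theorem net_nonneg (B : List (ℝ × ℤ)) (r : ℝ) (h : ∀ b ∈ B, b.1 = r → b.2 = 1) :
    0 ≤ net B r ∧ ((∃ b ∈ B, b.1 = r) → 0 < net B r) := by
  induction B with
  | nil => exact ⟨le_rfl, by rintro ⟨b, hb, _⟩; simp at hb⟩
  | cons c D ih =>
    have ih' := ih (fun b hb => h b (List.mem_cons_of_mem _ hb))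
    unfold net
    by_cases hc : c.1 = r
    · rw [if_pos hc, h c (by simp) hc]
      exact ⟨by linarith [ih'.1], fun _ => by linarith [ih'.1]⟩
    · rw [if_neg hc, zero_add]
      refine ⟨ih'.1, ?_⟩
      rintro ⟨b, hb, hbr⟩
      rcases List.mem_cons.1 hb with rfl | hb
      · exact absurd hbr hc
      · exact ih'.2 ⟨b, hb, hbr⟩

theorem exists_net (B : List (ℝ × ℤ)) (hB : B ≠ []) (h : Ch B)
    (hs : ∀ b ∈ B, b.2 = 1 ∨ b.2 = -1) : ∃ b ∈ B, net B b.1 ≠ 0 := by
  obtain ⟨b0, B', rfl⟩ := List.exists_cons_of_ne_nil hB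
  by_cases hB' : B' = []
  · subst hB'
    refine ⟨b0, by simp, ?_⟩
    simp only [net, if_true, add_zero]
    rcases hs b0 (by simp) with h1 | h1 <;> rw [h1] <;> norm_num
  · have hbig := bigger B' b0 h hB'
    classical
    obtain ⟨m, hm', hmax'⟩ := Finset.exists_max_image (b0 :: B').toFinset (fun b => b.1)
      ⟨b0, by simp⟩
    have hm : m ∈ b0 :: B' := List.mem_toFinset.1 hm'
    have hmax : ∀ b ∈ b0 :: B', b.1 ≤ m.1 := fun b hb => hmax' b (List.mem_toFinset.2 hb)
    refine ⟨m, hm, ?_⟩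
    have := (net_nonneg (b0 :: B') m.1 (by
      intro b hb hbm
      rcases hs b hb with h1 | h1
      · exact h1
      · obtain ⟨b', hb', hlt⟩ := hbig b hb h1
        have := hmax b' hb'
        linarith)).2 ⟨m, hm, rfl⟩
    omega

section flush
variable {M : Type} [Field M] [Algebra ℂ M]

theorem net_not_mem (B : List (ℝ × ℤ)) (r : ℝ) (h : ∀ b ∈ B, b.1 ≠ r) : net B r = 0 := by
  induction B with
  | nil => rfl
  | cons c D ih =>
    unfold net
    rw [if_neg (h c (by simp)), ih (fun b hb => h b (List.mem_cons_of_mem _ hb)), add_zero]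

theorem net_cons (b : ℝ × ℤ) (B : List (ℝ × ℤ)) (r : ℝ) :
    net (b :: B) r = (if b.1 = r then b.2 else 0) + net B r := rfl

/-- grouping the product -/
theorem prod_group (G : ℝ → M) (B : List (ℝ × ℤ)) (F : Finset ℝ) (hF : ∀ b ∈ B, b.1 ∈ F)
    (hG : ∀ r ∈ F, G r ≠ 0) :
    (B.map (fun b => G b.1 ^ (2 * b.2))).prod = ∏ r ∈ F, G r ^ (2 * net B r) := by
  induction B with
  | nil => simp [net]
  | cons c D ih =>
    rw [List.map_cons, List.prod_cons, ih (fun b hb => hF b (List.mem_cons_of_mem _ hb))]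
    have h1 : ∀ r ∈ F, G r ^ (2 * net (c :: D) r) =
        (if c.1 = r then G c.1 ^ (2 * c.2) else 1) * G r ^ (2 * net D r) := by
      intro r hr
      rw [net_cons]
      by_cases hc : c.1 = r
      · rw [if_pos hc, if_pos hc, mul_add, zpow_add₀ (hG r hr), hc]
      · rw [if_neg hc, if_neg hc, zero_add, one_mul]
    rw [Finset.prod_congr rfl h1, Finset.prod_mul_distrib, Finset.prod_ite_eq,
      if_pos (hF c (by simp))]

/-- adding the hits of a block -/
theorem add_hits (z0 p0 : M) (l : List Step) (hl : WF l) (htr : trail l = [])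
    (K : IntermediateField ℂ M) (zb p : M) (hrun : Run z0 p0 l K zb p)
    (W : ℝ → M) (e : ℝ → ℤ) (F : Finset ℝ)
    (hF : ∀ r ∈ F, 0 < r ∧ (W r) ^ 2 = algebraMap ℂ M ((r : ℂ) ^ 2) - p ^ 2) :
    ∃ (l1 : List Step) (K1 : IntermediateField ℂ M), WF l1 ∧ (∀ r ∈ trail l1, r ∈ F) ∧
      Run z0 p0 l1 K1 (zb * ∏ r ∈ F, (gg r (W r) p) ^ (2 * e r)) p := by
  classical
  induction F using Finset.induction_on with
  | empty =>
    refine ⟨l, K, hl, ?_, ?_⟩
    · rw [htr]; simp
    · simpa using hrun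
  | insert a F haF ih =>
    obtain ⟨l1, K1, hl1, htr1, hr1⟩ := ih (fun r hr => hF r (Finset.mem_insert_of_mem hr))
    by_cases hea : e a = 0
    · refine ⟨l1, K1, hl1, fun r hr => Finset.mem_insert_of_mem (htr1 r hr), ?_⟩
      rw [Finset.prod_insert haF, hea]
      simpa using hr1
    · have ha := hF a (Finset.mem_insert_self _ _)
      refine ⟨Step.hit a (e a) 1 :: l1, ext1 K1 (W a),
        ⟨hl1, ha.1, hea, one_ne_zero, fun h => haF (htr1 a h)⟩, ?_, ?_⟩
      · intro r hr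
        rcases List.mem_cons.1 hr with rfl | hr
        · exact Finset.mem_insert_self _ _
        · exact Finset.mem_insert_of_mem (htr1 r hr)
      · have := Run.hit l1 K1 _ p a (e a) 1 (W a) hr1 ha.2
        rw [map_one, one_mul] at this
        rw [Finset.prod_insert haF]
        have e1 : zb * (gg a (W a) p ^ (2 * e a) * ∏ x ∈ F, gg x (W x) p ^ (2 * e x)) =
          (zb * ∏ x ∈ F, gg x (W x) p ^ (2 * e x)) * gg a (W a) p ^ (2 * e a) := by ring
        rw [e1]
        exact this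

/-- flushing a block -/
theorem flush (z0 p0 : M) (l : List Step) (hl : WF l) (htr : trail l = [])
    (K : IntermediateField ℂ M) (zb p : M) (hrun : Run z0 p0 l K zb p)
    (W : ℝ → M) (B : List (ℝ × ℤ)) (hB : B ≠ []) (hch : Ch B)
    (hs : ∀ b ∈ B, 0 < b.1 ∧ (b.2 = 1 ∨ b.2 = -1))
    (hW : ∀ b ∈ B, (W b.1) ^ 2 = algebraMap ℂ M ((b.1 : ℂ) ^ 2) - p ^ 2)
    (κ : ℂ) (hκ : κ ≠ 0) :
    ∃ (r : ℝ) (e : ℤ) (l3 : List Step) (K3 : IntermediateField ℂ M) (z3 w : M),
      WF (Step.hit r e κ :: l3) ∧ Run z0 p0 l3 K3 z3 p ∧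
      w ^ 2 = algebraMap ℂ M ((r : ℂ) ^ 2) - p ^ 2 ∧
      algebraMap ℂ M κ * zb * (B.map (fun b => (gg b.1 (W b.1) p) ^ (2 * b.2))).prod =
        algebraMap ℂ M κ * z3 * (gg r w p) ^ (2 * e) := by
  classical
  obtain ⟨b, hb, hnet⟩ := exists_net B hB hch (fun b hb => (hs b hb).2)
  set F := (B.map Prod.fst).toFinset with hF
  have hFm : ∀ b ∈ B, b.1 ∈ F := by
    intro b hb
    rw [hF, List.mem_toFinset]
    exact List.mem_map_of_mem hb
  have hFW : ∀ r ∈ F, 0 < r ∧ (W r) ^ 2 = algebraMap ℂ M ((r : ℂ) ^ 2) - p ^ 2 := by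
    intro r hr
    rw [hF, List.mem_toFinset, List.mem_map] at hr
    obtain ⟨b, hb, rfl⟩ := hr
    exact ⟨(hs b hb).1, hW b hb⟩
  have hgrp := prod_group (fun r => gg r (W r) p) B F hFm
    (fun r hr => gg_ne r (hFW r hr).1 _ _ (hFW r hr).2)
  obtain ⟨l1, K1, hl1, htr1, hr1⟩ := add_hits z0 p0 l hl htr K zb p hrun W (net B) (F.erase b.1)
    (fun r hr => hFW r (Finset.mem_of_mem_erase hr))
  refine ⟨b.1, net B b.1, l1, K1, _, W b.1, ⟨hl1, (hs b hb).1, hnet, hκ, ?_⟩, hr1, hW b hb, ?_⟩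
  · intro h
    exact (Finset.notMem_erase b.1 F) (htr1 _ h)
  · rw [hgrp, ← Finset.mul_prod_erase F _ (hFm b hb)]
    ring

theorem base_le {z0 p0 : M} {l : List Step} {K : IntermediateField ℂ M} {z p : M}
    (h : Run z0 p0 l K z p) : adjoin ℂ {z0, p0} ≤ K := by
  induction h with
  | nil => exact le_rfl
  | hit l K z p r e κ w h hw ih => exact le_trans ih (le_ext1 K w)
  | shift l K z p α β h ih => exact ih

end flush

end H450Iv
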