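import Mathlib
import Pool.Agent.H450R2.Iv.Ind

/-! The field of germs along an ultrafilter. -/

set_option autoImplicit false

namespace H450Iv

open Filter

/-- phase space -/
abbrev Q := ℝ × ℝ

/-- germs of complex functions along an ultrafilter -/
def GM (U : Ultrafilter Q) : Type := (U : Filter Q).Germ ℂ

noncomputable section

instance (U : Ultrafilter Q) : Field (GM U) := inferInstanceAs (Field ((U : Filter Q).Germ ℂ))

/-- germ of a function -/
def mk (U : Ultrafilter Q) : (Q → ℂ) →+* GM U := Germ.coeRingHom (U : Filter Q)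

instance (U : Ultrafilter Q) : Algebra ℂ (GM U) :=
  ((mk U).comp (Pi.constRingHom Q ℂ)).toAlgebra

variable {U : Ultrafilter Q}

theorem algMap_eq (c : ℂ) : algebraMap ℂ (GM U) c = mk U (fun _ => c) := rfl

theorem mk_eq {f g : Q → ℂ} : mk U f = mk U g ↔ ∀ᶠ q in (U : Filter Q), f q = g q :=
  Germ.coe_eq

theorem mk_inv (f : Q → ℂ) : mk U (fun q => (f q)⁻¹) = (mk U f)⁻¹ := rfl

theorem mk_mul (f g : Q → ℂ) : mk U (fun q => f q * g q) = mk U f * mk U g := rfl

theorem mk_add (f g : Q → ℂ) : mk U (fun q => f q + g q) = mk U f + mk U g := rfl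

theorem mk_sub (f g : Q → ℂ) : mk U (fun q => f q - g q) = mk U f - mk U g := rfl

theorem mk_pow (f : Q → ℂ) (n : ℕ) : mk U (fun q => f q ^ n) = (mk U f) ^ n := by
  have : (fun q => f q ^ n) = f ^ n := rfl
  rw [this, map_pow]

theorem mk_zpow (f : Q → ℂ) (n : ℤ) : mk U (fun q => f q ^ n) = (mk U f) ^ n := by
  obtain ⟨k, rfl | rfl⟩ := n.eq_nat_or_neg
  · simp only [zpow_natCast]; exact mk_pow f k
  · simp only [zpow_neg, zpow_natCast]
    rw [mk_inv (fun q => f q ^ k), mk_pow]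

theorem aeval_mk (z p : Q → ℂ) (P : MvPolynomial (Fin 2) ℂ) :
    MvPolynomial.aeval ![mk U z, mk U p] P =
      mk U (fun q => MvPolynomial.eval ![z q, p q] P) := by
  induction P using MvPolynomial.induction_on with
  | C a => simp only [MvPolynomial.algHom_C, MvPolynomial.eval_C]; rfl
  | add f g hf hg =>
    rw [map_add, hf, hg]
    simp only [map_add]
    rw [mk_add]
  | mul_X f i hf =>
    rw [map_mul, hf, MvPolynomial.aeval_X]
    simp only [map_mul, MvPolynomial.eval_X]
    rw [mk_mul]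
    congr 1
    fin_cases i <;> rfl

theorem ind_mk (z p : Q → ℂ)
    (h : ∀ P : MvPolynomial (Fin 2) ℂ, P ≠ 0 →
      ∀ᶠ q in (U : Filter Q), MvPolynomial.eval ![z q, p q] P ≠ 0) :
    Ind (mk U z) (mk U p) := by
  unfold Ind
  rw [algebraicIndependent_iff]
  intro P hP
  by_contra hne
  rw [aeval_mk] at hP
  have h0 : mk U (fun q => MvPolynomial.eval ![z q, p q] P) = mk U (fun _ => 0) := by
    rw [hP]; exact (map_zero (mk U)).symm
  rw [mk_eq] at h0
  obtain ⟨q, hq1, hq2⟩ := ((h P hne).and h0).exists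
  exact hq1 hq2

theorem poly_fin1 (a : MvPolynomial (Fin 1) ℂ) (ha : a ≠ 0) :
    {z : ℂ | MvPolynomial.eval ![z] a = 0}.Finite := by
  set b := MvPolynomial.finSuccEquiv ℂ 0 a with hb
  have hb0 : b ≠ 0 := by
    rw [hb]; exact (map_ne_zero_iff _ (MvPolynomial.finSuccEquiv ℂ 0).injective).2 ha
  have hinj : Function.Injective (MvPolynomial.eval (![] : Fin 0 → ℂ)) := by
    intro x y hxy
    apply MvPolynomial.funext
    intro s
    have : s = ![] := Subsingleton.elim _ _
    rw [this]; exact hxy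
  have hm : b.map (MvPolynomial.eval (![] : Fin 0 → ℂ)) ≠ 0 :=
    (Polynomial.map_ne_zero_iff hinj).2 hb0
  refine Set.Finite.subset (Polynomial.rootSet_finite
    (b.map (MvPolynomial.eval (![] : Fin 0 → ℂ))) ℂ) ?_
  intro z hz
  rw [Polynomial.mem_rootSet]
  refine ⟨hm, ?_⟩
  have h1 := MvPolynomial.eval_eq_eval_mv_eval' (![] : Fin 0 → ℂ) z a
  have h2 : (Fin.cons z ![] : Fin 1 → ℂ) = ![z] := rfl
  rw [h2] at h1
  rw [Polynomial.coe_aeval_eq_eval, ← hb] at *
  rw [← h1]
  exact hz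

/-- a nonzero polynomial in two variables has only finitely many bad `z` -/
theorem poly_fin (P : MvPolynomial (Fin 2) ℂ) (hP : P ≠ 0) :
    ∃ Z : Set ℂ, Z.Finite ∧ ∀ z, z ∉ Z → {y : ℂ | MvPolynomial.eval ![z, y] P = 0}.Finite := by
  set P' := MvPolynomial.rename (Equiv.swap (0 : Fin 2) 1) P with hP'
  have hP'0 : P' ≠ 0 := by
    rw [hP']
    exact (map_ne_zero_iff _ (MvPolynomial.rename_injective _ (Equiv.injective _))).2 hP
  have hev : ∀ z y : ℂ, MvPolynomial.eval ![z, y] P = MvPolynomial.eval ![y, z] P' := by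
    intro z y
    rw [hP', MvPolynomial.eval_rename]
    congr 2
    ext i
    fin_cases i <;> simp
  set f := MvPolynomial.finSuccEquiv ℂ 1 P' with hf
  have hf0 : f ≠ 0 := by
    rw [hf]; exact (map_ne_zero_iff _ (MvPolynomial.finSuccEquiv ℂ 1).injective).2 hP'0
  obtain ⟨k, hk⟩ : ∃ k, f.coeff k ≠ 0 := by
    by_contra hcon
    push_neg at hcon
    exact hf0 (Polynomial.ext (by simpa using hcon))
  refine ⟨_, poly_fin1 (f.coeff k) hk, ?_⟩
  intro z hz
  have hm : f.map (MvPolynomial.eval ![z]) ≠ 0 := by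
    intro h0
    apply hz
    have := congrArg (fun q => Polynomial.coeff q k) h0
    simpa [Polynomial.coeff_map] using this
  refine Set.Finite.subset (Polynomial.rootSet_finite (f.map (MvPolynomial.eval ![z])) ℂ) ?_
  intro y hy
  rw [Polynomial.mem_rootSet]
  refine ⟨hm, ?_⟩
  have h1 := MvPolynomial.eval_eq_eval_mv_eval' (![z] : Fin 1 → ℂ) y P'
  have h2 : (Fin.cons y ![z] : Fin 2 → ℂ) = ![y, z] := rfl
  rw [h2, ← hf, ← hev] at h1
  rw [Polynomial.coe_aeval_eq_eval, ← h1]
  exact hy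

end

end H450Iv
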