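import Mathlib
import Pool.Agent.H450R2.Iv.Comb
import Pool.Agent.H450R2.Iv.Germ

/-! Germs of orbits give runs. -/

set_option autoImplicit false

namespace H450Iv

open IntermediateField ComplexConjugate

noncomputable section

/-- signed distance from the line `(x, v)` to `c` -/
def pd (c x v : ℂ) : ℝ := ((x - c) * conj v).im

/-- reflection of the direction at the point `y` of the circle `(c, R)` -/
def refl (c : ℂ) (R : ℝ) (y v : ℂ) : ℂ := -((y - c) ^ 2 / (R : ℂ) ^ 2 * conj v)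

/-- unfolded orbits: hits are `(c, R, s)` -/
def Orb : List (ℂ × ℝ × ℤ) → ℂ → ℂ → ℂ → Prop
  | [], _, v, v' => v' = v
  | h :: H, x, v, v' => ∃ t : ℝ, 0 < t ∧ ‖x + t * v - h.1‖ = h.2.1 ∧
      0 < (h.2.2 : ℝ) * ((x + t * v - h.1) * conj v).re ∧
      Orb H (x + t * v) (refl h.1 h.2.1 (x + t * v) v) v'

section pointwise

theorem pd_move (c x v : ℂ) (t : ℝ) (hv : v * conj v = 1) : pd c (x + t * v) v = pd c x v := by
  unfold pd
  have : (x + t * v - c) * conj v = (x - c) * conj v + (t : ℂ) * (v * conj v) := by ring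
  rw [this, hv]
  simp

theorem norm_sq_R {a : ℂ} {R : ℝ} (h : ‖a‖ = R) : a * conj a = (R : ℂ) ^ 2 := by
  rw [Complex.mul_conj, Complex.normSq_eq_norm_sq, h]; push_cast; rfl

theorem refl_unit (c : ℂ) (R : ℝ) (hR : 0 < R) (y v : ℂ) (hv : v * conj v = 1)
    (hy : ‖y - c‖ = R) : refl c R y v * conj (refl c R y v) = 1 := by
  have hR' : (R : ℂ) ≠ 0 := by exact_mod_cast hR.ne'
  have h1 := norm_sq_R hy
  unfold refl
  simp only [map_neg, map_mul, map_div₀, map_pow, Complex.conj_ofReal, Complex.conj_conj]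
  have : -((y - c) ^ 2 / (R : ℂ) ^ 2 * conj v) * -(conj (y - c) ^ 2 / (R : ℂ) ^ 2 * v) =
      ((y - c) * conj (y - c)) ^ 2 / (R : ℂ) ^ 4 * (v * conj v) := by
    field_simp
  rw [this, h1, hv]
  field_simp

/-- `(y-c) conj v' = - conj ((y-c) conj v)` -/
theorem refl_mul (c : ℂ) (R : ℝ) (hR : 0 < R) (y v : ℂ) (hy : ‖y - c‖ = R) :
    (y - c) * conj (refl c R y v) = - conj ((y - c) * conj v) := by
  have hR' : (R : ℂ) ≠ 0 := by exact_mod_cast hR.ne'
  have h1 := norm_sq_R hy
  unfold refl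
  simp only [map_neg, map_mul, map_div₀, map_pow, Complex.conj_ofReal, Complex.conj_conj]
  have : (y - c) * -(conj (y - c) ^ 2 / (R : ℂ) ^ 2 * v) =
      -(((y - c) * conj (y - c)) * conj (y - c) / (R : ℂ) ^ 2 * v) := by ring
  rw [this, h1]
  field_simp

theorem pd_refl (c : ℂ) (R : ℝ) (hR : 0 < R) (y v : ℂ) (hy : ‖y - c‖ = R) :
    pd c y (refl c R y v) = pd c y v := by
  unfold pd
  rw [refl_mul c R hR y v hy]
  simp
  ring

theorem re_refl (c : ℂ) (R : ℝ) (hR : 0 < R) (y v : ℂ) (hy : ‖y - c‖ = R) :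
    ((y - c) * conj (refl c R y v)).re = - ((y - c) * conj v).re := by
  rw [refl_mul c R hR y v hy]
  simp
  ring

theorem hit_sq (c : ℂ) (R : ℝ) (y v : ℂ) (hv : v * conj v = 1) (hy : ‖y - c‖ = R) :
    R ^ 2 - pd c y v ^ 2 = ((y - c) * conj v).re ^ 2 := by
  have h1 : Complex.normSq ((y - c) * conj v) = R ^ 2 := by
    have hz1 : Complex.normSq (conj v) = 1 := by
      have : (Complex.normSq v : ℂ) = 1 := by rw [Complex.normSq_eq_conj_mul_self, mul_comm, hv]
      rw [Complex.normSq_conj]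
      exact_mod_cast this
    rw [Complex.normSq_mul, hz1, mul_one, Complex.normSq_eq_norm_sq, hy]
  rw [Complex.normSq_apply] at h1
  unfold pd
  linarith

/-- the formula `v' = - v g^{2s}` -/
theorem refl_formula (c : ℂ) (R : ℝ) (hR : 0 < R) (y v : ℂ) (hv : v * conj v = 1)
    (hy : ‖y - c‖ = R) (s : ℤ) (hs : s = 1 ∨ s = -1)
    (hsg : 0 < (s : ℝ) * ((y - c) * conj v).re) :
    refl c R y v = -(v * (((Real.sqrt (R ^ 2 - pd c y v ^ 2) : ℝ) +
      Complex.I * (pd c y v : ℝ)) * (R : ℂ)⁻¹) ^ (2 * s)) := by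
  have hR' : (R : ℂ) ≠ 0 := by exact_mod_cast hR.ne'
  set a := ((y - c) * conj v).re with ha
  have hp : pd c y v = ((y - c) * conj v).im := rfl
  have h0 : (y - c) * conj v = (a : ℂ) + Complex.I * (pd c y v : ℝ) := by
    rw [hp]
    apply Complex.ext <;> simp [← ha]
  have h1 : y - c = v * ((a : ℂ) + Complex.I * (pd c y v : ℝ)) := by
    rw [← h0]
    calc y - c = (y - c) * 1 := by ring
      _ = (y - c) * (v * conj v) := by rw [hv]
      _ = _ := by ring
  have h2 := hit_sq c R y v hv hy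
  rw [← ha] at h2
  have h3 : refl c R y v = -(v * (((a : ℂ) + Complex.I * (pd c y v : ℝ)) ^ 2 / (R : ℂ) ^ 2)) := by
    unfold refl
    rw [h1]
    have : (v * ((a : ℂ) + Complex.I * (pd c y v : ℝ))) ^ 2 / (R : ℂ) ^ 2 * conj v =
      v * (((a : ℂ) + Complex.I * (pd c y v : ℝ)) ^ 2 / (R : ℂ) ^ 2) * (v * conj v) := by ring
    rw [this, hv, mul_one]
  rw [h2, Real.sqrt_sq_eq_abs, h3]
  rcases hs with rfl | rfl
  · have hpos : 0 < a := by simpa using hsg
    rw [abs_of_pos hpos]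
    congr 2
    rw [mul_one]
    rw [show ((2 : ℤ)) = ((2 : ℕ) : ℤ) from rfl, zpow_natCast, mul_pow, inv_pow]
    rfl
  · have hneg : a < 0 := by
      have : 0 < (-1 : ℝ) * a := by simpa using hsg
      linarith
    rw [abs_of_neg hneg]
    congr 2
    have h4 : (a : ℂ) ^ 2 + (pd c y v : ℂ) ^ 2 = (R : ℂ) ^ 2 := by
      have : a ^ 2 + pd c y v ^ 2 = R ^ 2 := by linarith
      exact_mod_cast this
    have h5 : ((a : ℂ) + Complex.I * (pd c y v : ℝ)) * (((-a : ℝ) : ℂ) + Complex.I * (pd c y v : ℝ))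
        = -(R : ℂ) ^ 2 := by
      rw [← h4]
      push_cast
      ring_nf
      rw [Complex.I_sq]
      ring
    have h6 : (((-a : ℝ) : ℂ) + Complex.I * (pd c y v : ℝ)) ≠ 0 := by
      intro h
      rw [h, mul_zero] at h5
      have : (R : ℂ) ^ 2 ≠ 0 := pow_ne_zero _ hR'
      exact this (by linear_combination h5)
    rw [show (2 * (-1) : ℤ) = -((2 : ℕ) : ℤ) from rfl, zpow_neg, zpow_natCast]
    field_simp
    linear_combination (((a : ℂ) + Complex.I * (pd c y v : ℝ)) *
      (((-a : ℝ) : ℂ) + Complex.I * (pd c y v : ℝ)) - (R : ℂ) ^ 2) * h5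

/-- transition rule -/
theorem trans_rule (c : ℂ) (x v : ℂ) (hv : v * conj v = 1) (R R' : ℝ) (hR : 0 < R) (hR' : 0 < R')
    (s s' : ℤ) (hs : s = 1 ∨ s = -1) (hs' : s' = 1 ∨ s' = -1) (hx : ‖x - c‖ = R)
    (hxs : (s : ℝ) * ((x - c) * conj v).re < 0) (t : ℝ) (ht : 0 < t)
    (hy : ‖x + t * v - c‖ = R') (hys : 0 < (s' : ℝ) * ((x + t * v - c) * conj v).re) :
    Tr (R', s') (R, s) := by
  have h1 := hit_sq c R x v hv hx
  have h2 := hit_sq c R' (x + t * v) v hv hy
  rw [pd_move c x v t hv] at h2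
  have h3 : ((x + t * v - c) * conj v).re = ((x - c) * conj v).re + t := by
    have : (x + t * v - c) * conj v = (x - c) * conj v + (t : ℂ) * (v * conj v) := by ring
    rw [this, hv]
    simp
  rw [h3] at h2 hys
  set a := ((x - c) * conj v).re with ha
  unfold Tr
  constructor
  · intro hs1
    simp only at hs1
    rw [hs1] at hxs
    have ha0 : 0 < a := by push_cast at hxs; linarith
    have hs'1 : s' = 1 := by
      rcases hs' with h | h
      · exact h
      · rw [h] at hys; push_cast at hys; linarith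
    refine ⟨hs'1, ?_⟩
    simp only
    nlinarith
  · intro hs1
    simp only at hs1
    rw [hs1] at hys
    have ha0 : a + t < 0 := by push_cast at hys; linarith
    have hs'1 : s = 1 := by
      rcases hs with h | h
      · exact h
      · rw [h] at hxs; push_cast at hxs; linarith
    refine ⟨hs'1, ?_⟩
    simp only
    nlinarith

theorem pd_change (c c' x v : ℂ) (hv : v * conj v = 1) :
    ((pd c' x v : ℝ) : ℂ) = (pd c x v : ℝ) + (-(conj (c - c')) / (2 * Complex.I)) * v +
      ((c - c') / (2 * Complex.I)) * v⁻¹ := by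
  have hvi : v⁻¹ = conj v := inv_eq_of_mul_eq_one_right hv
  have him : ∀ u : ℂ, ((u.im : ℝ) : ℂ) = (u - conj u) / (2 * Complex.I) := by
    intro u
    rw [Complex.sub_conj]
    have := Complex.I_ne_zero
    field_simp
    push_cast
    ring
  unfold pd
  rw [him, him, hvi]
  simp only [map_mul, map_sub, Complex.conj_conj]
  ring

end pointwise

end

end H450Iv
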