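import Mathlib
import Pool.Agent.H450R2.Iv.Germ

/-! Null sets in the phase space. -/

set_option autoImplicit false

namespace H450Iv

open MeasureTheory ComplexConjugate

noncomputable section

/-- the curve lies in a circle or in a line -/
def MirC (γ : ℝ → ℂ) : Prop :=
  (∃ (c : ℂ) (R : ℝ), 0 < R ∧ ∀ s ∈ Set.Icc (0 : ℝ) 1, ‖γ s - c‖ = R) ∨
  (∃ (ν : ℂ) (d : ℝ), ν ≠ 0 ∧ ∀ s ∈ Set.Icc (0 : ℝ) 1, (γ s * conj ν).re = d)

/-- direction -/
def zf (q : Q) : ℂ := Complex.exp (Complex.I * (q.2 : ℂ))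

/-- signed distance of the line to `c` -/
def pf (γ : ℝ → ℂ) (c : ℂ) (q : Q) : ℝ := ((γ q.1 - c) * conj (zf q)).im

theorem countable_phi (Z : Set ℂ) (hZ : Z.Finite) :
    {φ : ℝ | Complex.exp (Complex.I * (φ : ℂ)) ∈ Z}.Countable := by
  have h1 : {φ : ℝ | Complex.exp (Complex.I * (φ : ℂ)) ∈ Z} =
      ⋃ z ∈ Z, {φ : ℝ | Complex.exp (Complex.I * (φ : ℂ)) = z} := by
    ext φ; simp
  rw [h1]
  refine hZ.countable.biUnion ?_
  intro z _
  by_cases hne : ∃ φ0 : ℝ, Complex.exp (Complex.I * (φ0 : ℂ)) = z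
  · obtain ⟨φ0, h0⟩ := hne
    refine Set.Countable.mono ?_ (Set.countable_range (fun n : ℤ => φ0 + n * (2 * Real.pi)))
    intro φ hφ
    have h2 : Complex.exp (Complex.I * (φ : ℂ)) = Complex.exp (Complex.I * (φ0 : ℂ)) := by
      rw [h0]; exact hφ
    obtain ⟨n, hn⟩ := Complex.exp_eq_exp_iff_exists_int.1 h2
    refine ⟨n, ?_⟩
    have h3 : Complex.I * (φ : ℂ) = Complex.I * ((φ0 + n * (2 * Real.pi) : ℝ) : ℂ) := by
      rw [hn]; push_cast; ring
    have h4 := mul_left_cancel₀ Complex.I_ne_zero h3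
    exact (Complex.ofReal_injective h4).symm
  · have : {φ : ℝ | Complex.exp (Complex.I * (φ : ℂ)) = z} = ∅ := by
      ext φ
      simp only [Set.mem_ofPred_eq, Set.mem_empty_iff_false, iff_false]
      exact fun h => hne ⟨φ, h⟩
    rw [this]; exact Set.countable_empty

theorem circ_fin (c c0 z : ℂ) (R y : ℝ) (hz : z * conj z = 1) :
    {x : ℂ | ‖x - c‖ = R ∧ ((x - c0) * conj z).im = y}.Finite := by
  set d := (c0 - c) * conj z with hd
  refine Set.Finite.subset (Set.toFinite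
    ({c0 + z * ((-d.re + Real.sqrt (R ^ 2 - (y + d.im) ^ 2) : ℝ) + Complex.I * y),
      c0 + z * ((-d.re - Real.sqrt (R ^ 2 - (y + d.im) ^ 2) : ℝ) + Complex.I * y)} : Set ℂ)) ?_
  rintro x ⟨h1, h2⟩
  set u := ((x - c0) * conj z).re with hu
  have h3 : (x - c0) * conj z = (u : ℂ) + Complex.I * y := by
    apply Complex.ext <;> simp [← hu, ← h2]
  have h4 : x = c0 + z * ((u : ℂ) + Complex.I * y) := by
    rw [← h3]
    calc x = c0 + (x - c0) * 1 := by ring
      _ = c0 + (x - c0) * (z * conj z) := by rw [hz]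
      _ = _ := by ring
  have h5 : (x - c) * conj z = d + ((u : ℂ) + Complex.I * y) := by
    rw [← h3, hd]; ring
  have h6 : Complex.normSq ((x - c) * conj z) = R ^ 2 := by
    have hz1 : Complex.normSq (conj z) = 1 := by
      have : (Complex.normSq z : ℂ) = 1 := by rw [Complex.normSq_eq_conj_mul_self, mul_comm, hz]
      rw [Complex.normSq_conj]
      exact_mod_cast this
    rw [Complex.normSq_mul, hz1, mul_one, Complex.normSq_eq_norm_sq, h1]
  rw [h5, Complex.normSq_apply] at h6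
  simp at h6
  have h7 : (u + d.re) ^ 2 = R ^ 2 - (y + d.im) ^ 2 := by linarith
  have h8 : u + d.re = Real.sqrt (R ^ 2 - (y + d.im) ^ 2) ∨
      u + d.re = - Real.sqrt (R ^ 2 - (y + d.im) ^ 2) := by
    rw [← h7, Real.sqrt_sq_eq_abs]
    rcases abs_choice (u + d.re) with h | h
    · left; exact h.symm
    · right; rw [h]; ring
  rcases h8 with h8 | h8
  · left
    rw [h4]
    have : u = -d.re + Real.sqrt (R ^ 2 - (y + d.im) ^ 2) := by linarith
    rw [← this]
  · right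
    rw [Set.mem_singleton_iff, h4]
    have : u = -d.re - Real.sqrt (R ^ 2 - (y + d.im) ^ 2) := by linarith
    rw [← this]

theorem line_fin (ν c0 z : ℂ) (d y : ℝ) (hz : z * conj z = 1) (hν : (z * conj ν).re ≠ 0) :
    {x : ℂ | (x * conj ν).re = d ∧ ((x - c0) * conj z).im = y}.Finite := by
  refine Set.Finite.subset (Set.finite_singleton
    (c0 + z * ((((d - (c0 * conj ν).re - (Complex.I * y * (z * conj ν)).re) / (z * conj ν).re : ℝ)
      : ℂ) + Complex.I * y))) ?_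
  rintro x ⟨h1, h2⟩
  set u := ((x - c0) * conj z).re with hu
  have h3 : (x - c0) * conj z = (u : ℂ) + Complex.I * y := by
    apply Complex.ext <;> simp [← hu, ← h2]
  have h4 : x = c0 + z * ((u : ℂ) + Complex.I * y) := by
    rw [← h3]
    calc x = c0 + (x - c0) * 1 := by ring
      _ = c0 + (x - c0) * (z * conj z) := by rw [hz]
      _ = _ := by ring
  have h5 : d = (c0 * conj ν).re + u * (z * conj ν).re + (Complex.I * y * (z * conj ν)).re := by
    rw [← h1, h4]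
    have : (c0 + z * ((u : ℂ) + Complex.I * y)) * conj ν =
      c0 * conj ν + (u : ℂ) * (z * conj ν) + Complex.I * y * (z * conj ν) := by ring
    rw [this, Complex.add_re, Complex.add_re, Complex.re_ofReal_mul]
  have h6 : u = (d - (c0 * conj ν).re - (Complex.I * y * (z * conj ν)).re) / (z * conj ν).re := by
    rw [eq_div_iff hν]; linarith [h5]
  rw [Set.mem_singleton_iff, h4]
  congr 3
  exact_mod_cast h6

theorem zf_mul (φ : ℝ) : Complex.exp (Complex.I * (φ : ℂ)) * conj (Complex.exp (Complex.I * (φ : ℂ)))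
    = 1 := by
  rw [← Complex.exp_conj, ← Complex.exp_add]
  simp

theorem sec_fin (γ : ℝ → ℂ) (hinj : Set.InjOn γ (Set.Ioo 0 1)) (hm : MirC γ) (c0 : ℂ) :
    ∃ Z : Set ℂ, Z.Finite ∧ ∀ φ : ℝ, Complex.exp (Complex.I * (φ : ℂ)) ∉ Z → ∀ y : ℂ,
      {s : ℝ | s ∈ Set.Ioo (0 : ℝ) 1 ∧ ((pf γ c0 (s, φ) : ℝ) : ℂ) = y}.Finite := by
  have red : ∀ (A : Set ℂ) (φ : ℝ) (y : ℂ), (∀ y' : ℝ, {x : ℂ | x ∈ A ∧
      ((x - c0) * conj (Complex.exp (Complex.I * (φ : ℂ)))).im = y'}.Finite) →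
      (∀ s ∈ Set.Icc (0 : ℝ) 1, γ s ∈ A) →
      {s : ℝ | s ∈ Set.Ioo (0 : ℝ) 1 ∧ ((pf γ c0 (s, φ) : ℝ) : ℂ) = y}.Finite := by
    intro A φ y hA hγ
    refine Set.Finite.of_finite_image (f := γ) ?_ (hinj.mono fun s hs => hs.1)
    refine Set.Finite.subset (hA y.re) ?_
    rintro x ⟨s, ⟨hs1, hs2⟩, rfl⟩
    refine ⟨hγ s (Set.Ioo_subset_Icc_self hs1), ?_⟩
    rw [← hs2, Complex.ofReal_re]
    rfl
  rcases hm with ⟨c, R, hR, hc⟩ | ⟨ν, d, hν, hd⟩
  · refine ⟨∅, Set.finite_empty, ?_⟩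
    intro φ _ y
    exact red {x | ‖x - c‖ = R} φ y (fun y' => circ_fin c c0 _ R y' (zf_mul φ)) hc
  · refine ⟨{Complex.I * ν / ‖ν‖, -(Complex.I * ν / ‖ν‖)}, Set.toFinite _, ?_⟩
    intro φ hφ y
    refine red {x | (x * conj ν).re = d} φ y (fun y' => line_fin ν c0 _ d y' (zf_mul φ) ?_) hd
    intro h0
    apply hφ
    set z := Complex.exp (Complex.I * (φ : ℂ)) with hz
    have hzz := zf_mul φ
    rw [← hz] at hzz
    -- z * conj ν = i b, b = ± ‖ν‖
    set b := (z * conj ν).im with hb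
    have h1 : z * conj ν = Complex.I * b := by
      apply Complex.ext <;> simp [h0, ← hb]
    have hνn : (‖ν‖ : ℂ) ≠ 0 := by
      simpa using hν
    have h2 : (ν * conj ν : ℂ) = (‖ν‖ : ℂ) ^ 2 := by
      rw [Complex.mul_conj, Complex.normSq_eq_norm_sq]; push_cast; rfl
    have h3 : z * (‖ν‖ : ℂ) ^ 2 = Complex.I * b * ν := by
      rw [← h2, ← h1]; ring
    have h4 : b ^ 2 = ‖ν‖ ^ 2 := by
      have h5 : Complex.normSq (z * conj ν) = ‖ν‖ ^ 2 := by
        have hz1 : Complex.normSq z = 1 := by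
          have : (Complex.normSq z : ℂ) = 1 := by
            rw [Complex.normSq_eq_conj_mul_self, mul_comm, hzz]
          exact_mod_cast this
        rw [Complex.normSq_mul, Complex.normSq_conj, hz1, one_mul, Complex.normSq_eq_norm_sq]
      rw [h1, Complex.normSq_mul] at h5
      simp at h5
      nlinarith [h5]
    rcases sq_eq_sq_iff_eq_or_eq_neg.1 h4 with h | h
    · left
      rw [h] at h3
      rw [eq_div_iff hνn]
      have : z * (‖ν‖ : ℂ) * ‖ν‖ = Complex.I * ν * ‖ν‖ := by linear_combination h3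
      exact mul_right_cancel₀ hνn this
    · right
      rw [h] at h3
      rw [Set.mem_singleton_iff, ← neg_div, eq_div_iff hνn]
      push_cast at h3
      have : z * (‖ν‖ : ℂ) * ‖ν‖ = -(Complex.I * ν) * ‖ν‖ := by linear_combination h3
      exact mul_right_cancel₀ hνn this

theorem null_poly (γ : ℝ → ℂ) (hγ : Continuous γ) (hinj : Set.InjOn γ (Set.Ioo 0 1))
    (hm : MirC γ) (c0 : ℂ) (P : MvPolynomial (Fin 2) ℂ) (hP : P ≠ 0) :
    volume {q : Q | q.1 ∈ Set.Ioo (0 : ℝ) 1 ∧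
      MvPolynomial.eval ![zf q, ((pf γ c0 q : ℝ) : ℂ)] P = 0} = 0 := by
  set S := {q : Q | q.1 ∈ Set.Ioo (0 : ℝ) 1 ∧
      MvPolynomial.eval ![zf q, ((pf γ c0 q : ℝ) : ℂ)] P = 0} with hS
  have hz : Continuous zf := by unfold zf; fun_prop
  have hp : Continuous (fun q : Q => ((pf γ c0 q : ℝ) : ℂ)) := by
    unfold pf
    have : Continuous fun q : Q => γ q.1 := hγ.comp continuous_fst
    have h2 : Continuous fun q : Q => conj (zf q) := Complex.continuous_conj.comp hz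
    exact Complex.continuous_ofReal.comp (Complex.continuous_im.comp
      ((this.sub continuous_const).mul h2))
  have hcont : Continuous (fun q : Q => MvPolynomial.eval ![zf q, ((pf γ c0 q : ℝ) : ℂ)] P) := by
    refine (MvPolynomial.continuous_eval P).comp ?_
    refine continuous_pi ?_
    intro i
    fin_cases i
    · exact hz
    · exact hp
  have hmeas : MeasurableSet S := by
    rw [hS]
    apply MeasurableSet.inter
    · exact measurable_fst measurableSet_Ioo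
    · exact (isClosed_singleton.preimage hcont).measurableSet
  have hswap : volume S = (volume : Measure (ℝ × ℝ)) (Prod.swap ⁻¹' S) := by
    have := (Measure.measurePreserving_swap (μ := (volume : Measure ℝ))
      (ν := (volume : Measure ℝ))).measure_preimage hmeas.nullMeasurableSet
    exact this.symm
  rw [hswap, Measure.volume_eq_prod, Measure.measure_prod_null (measurable_swap hmeas)]
  obtain ⟨Z1, hZ1, hZ1'⟩ := poly_fin P hP
  obtain ⟨Z2, hZ2, hZ2'⟩ := sec_fin γ hinj hm c0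
  have hc := countable_phi (Z1 ∪ Z2) (hZ1.union hZ2)
  have hae : ∀ᵐ φ : ℝ, φ ∉ {φ : ℝ | Complex.exp (Complex.I * (φ : ℂ)) ∈ Z1 ∪ Z2} :=
    hc.ae_notMem volume
  filter_upwards [hae] with φ hφ
  have h1 : Complex.exp (Complex.I * (φ : ℂ)) ∉ Z1 := fun h => hφ (Or.inl h)
  have h2 : Complex.exp (Complex.I * (φ : ℂ)) ∉ Z2 := fun h => hφ (Or.inr h)
  have hY := hZ1' _ h1
  have hfin : (Prod.mk φ ⁻¹' (Prod.swap ⁻¹' S)).Finite := by
    have : Prod.mk φ ⁻¹' (Prod.swap ⁻¹' S) ⊆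
        ⋃ y ∈ {y : ℂ | MvPolynomial.eval ![Complex.exp (Complex.I * (φ : ℂ)), y] P = 0},
          {s : ℝ | s ∈ Set.Ioo (0 : ℝ) 1 ∧ ((pf γ c0 (s, φ) : ℝ) : ℂ) = y} := by
      intro s hs
      have hs' : (s, φ) ∈ S := hs
      rw [Set.mem_iUnion₂]
      exact ⟨_, hs'.2, hs'.1, rfl⟩
    exact (hY.biUnion fun y _ => hZ2' φ h2 y).subset this
  exact hfin.measure_zero volume

end

end H450Iv
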