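import Mathlib
import Pool.Agent.H450R2.Iv.Block

/-! The state of the construction along an orbit of germs. -/

set_option autoImplicit false

namespace H450Iv

open IntermediateField ComplexConjugate

noncomputable section

variable (U : Ultrafilter Q)

/-- germ of the signed distance -/
def pg (c : ℂ) (x v : Q → ℂ) : GM U := mk U (fun q => ((pd c (x q) (v q) : ℝ) : ℂ))

/-- germ of the root -/
def Wg (c : ℂ) (x v : Q → ℂ) (r : ℝ) : GM U :=
  mk U (fun q => ((Real.sqrt (r ^ 2 - pd c (x q) (v q) ^ 2) : ℝ) : ℂ))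

/-- state -/
structure St (z0 p0 : GM U) (x v : Q → ℂ) (c : ℂ) (B : List (ℝ × ℤ)) : Prop where
  build ::
  hv : ∀ᶠ q in (U : Filter Q), v q * conj (v q) = 1
  run : ∃ (l : List Step) (K : IntermediateField ℂ (GM U)) (zb : GM U) (κ : ℂ),
    WF l ∧ trail l = [] ∧ κ ≠ 0 ∧ Run z0 p0 l K zb (pg U c x v) ∧
    mk U v = algebraMap ℂ (GM U) κ * zb *
      (B.map (fun b => gg b.1 (Wg U c x v b.1) (pg U c x v) ^ (2 * b.2))).prod
  pos : ∀ b ∈ B, 0 < b.1 ∧ (b.2 = 1 ∨ b.2 = -1)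
  hW : ∀ b ∈ B, (Wg U c x v b.1) ^ 2 = algebraMap ℂ (GM U) ((b.1 : ℂ) ^ 2) - (pg U c x v) ^ 2
  ch : Ch B
  last : ∀ b0 B', B = b0 :: B' → ∀ᶠ q in (U : Filter Q), ‖x q - c‖ = b0.1 ∧
    (b0.2 : ℝ) * ((x q - c) * conj (v q)).re < 0

variable {U}

theorem Wg_sq (c : ℂ) (x v : Q → ℂ) (r : ℝ)
    (h : ∀ᶠ q in (U : Filter Q), 0 ≤ r ^ 2 - pd c (x q) (v q) ^ 2) :
    (Wg U c x v r) ^ 2 = algebraMap ℂ (GM U) ((r : ℂ) ^ 2) - (pg U c x v) ^ 2 := by
  unfold Wg pg
  rw [algMap_eq, ← mk_pow, ← mk_pow, ← mk_sub, mk_eq]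
  filter_upwards [h] with q hq
  have := Real.sq_sqrt hq
  exact_mod_cast this

theorem St.step {z0 p0 : GM U} {x v : Q → ℂ} {c : ℂ} {B : List (ℝ × ℤ)}
    (h : St U z0 p0 x v c B) (R : ℝ) (hR : 0 < R) (s : ℤ) (hs : s = 1 ∨ s = -1) (t : Q → ℝ)
    (ht : ∀ᶠ q in (U : Filter Q), 0 < t q ∧ ‖x q + t q * v q - c‖ = R ∧
      0 < (s : ℝ) * ((x q + t q * v q - c) * conj (v q)).re) :
    St U z0 p0 (fun q => x q + t q * v q) (fun q => refl c R (x q + t q * v q) (v q)) c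
      ((R, s) :: B) := by
  obtain ⟨l, K, zb, κ, hl, htr, hκ, hrun, hmk⟩ := h.run
  have hpd : ∀ᶠ q in (U : Filter Q), pd c (x q + t q * v q) (refl c R (x q + t q * v q) (v q)) =
      pd c (x q) (v q) := by
    filter_upwards [h.hv, ht] with q hq htq
    rw [pd_refl c R hR _ _ htq.2.1, pd_move c _ _ _ hq]
  have hpg : pg U c (fun q => x q + t q * v q) (fun q => refl c R (x q + t q * v q) (v q)) =
      pg U c x v := by
    unfold pg
    rw [mk_eq]
    filter_upwards [hpd] with q hq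
    rw [hq]
  have hWg : ∀ r, Wg U c (fun q => x q + t q * v q)
      (fun q => refl c R (x q + t q * v q) (v q)) r = Wg U c x v r := by
    intro r
    unfold Wg
    rw [mk_eq]
    filter_upwards [hpd] with q hq
    rw [hq]
  refine ⟨?_, ?_, ?_, ?_, ?_, ?_⟩
  · filter_upwards [h.hv, ht] with q hq htq
    exact refl_unit c R hR _ _ hq htq.2.1
  · refine ⟨l, K, zb, -κ, hl, htr, neg_ne_zero.2 hκ, ?_, ?_⟩
    · rw [hpg]; exact hrun
    · have h1 : mk U (fun q => refl c R (x q + t q * v q) (v q)) =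
          -(mk U v * (gg R (Wg U c x v R) (pg U c x v)) ^ (2 * s)) := by
        have h2 : gg R (Wg U c x v R) (pg U c x v) =
            mk U (fun q => ((Real.sqrt (R ^ 2 - pd c (x q) (v q) ^ 2) : ℝ) +
              Complex.I * (pd c (x q) (v q) : ℝ)) * (R : ℂ)⁻¹) := rfl
        rw [h2, ← mk_zpow, ← mk_mul, ← map_neg, mk_eq]
        filter_upwards [h.hv, ht] with q hq htq
        have h3 := refl_formula c R hR _ _ hq htq.2.1 s hs htq.2.2
        rw [pd_move c _ _ _ hq] at h3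
        rw [h3]
        rfl
      rw [h1, List.map_cons, List.prod_cons, hmk]
      simp only [hpg, hWg]
      rw [map_neg]
      ring
  · intro b hb
    rcases List.mem_cons.1 hb with rfl | hb
    · exact ⟨hR, hs⟩
    · exact h.pos b hb
  · intro b hb
    rw [hWg, hpg]
    rcases List.mem_cons.1 hb with rfl | hb
    · apply Wg_sq
      filter_upwards [h.hv, ht] with q hq htq
      have h3 := hit_sq c R _ _ hq htq.2.1
      rw [pd_move c _ _ _ hq] at h3
      change 0 ≤ R ^ 2 - _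
      rw [h3]
      positivity
    · exact h.hW b hb
  · cases B with
    | nil => trivial
    | cons b0 B' =>
      refine ⟨?_, h.ch⟩
      obtain ⟨q, hq, htq, hlq⟩ := (h.hv.and (ht.and (h.last b0 B' rfl))).exists
      have hb0 := h.pos b0 (by simp)
      exact trans_rule c (x q) (v q) hq b0.1 R hb0.1 hR b0.2 s hb0.2 hs hlq.1 hlq.2 (t q) htq.1
        htq.2.1 htq.2.2
  · intro b0 B' hB
    rw [List.cons.injEq] at hB
    rw [← hB.1]
    filter_upwards [ht] with q htq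
    refine ⟨htq.2.1, ?_⟩
    rw [re_refl c R hR _ _ htq.2.1]
    have := htq.2.2
    linarith

theorem St.flush {z0 p0 : GM U} {x v : Q → ℂ} {c : ℂ} {B : List (ℝ × ℤ)}
    (h : St U z0 p0 x v c B) (hB : B ≠ []) :
    ∃ (r : ℝ) (e : ℤ) (κ : ℂ) (l3 : List Step) (K3 : IntermediateField ℂ (GM U)) (z3 w : GM U),
      WF (Step.hit r e κ :: l3) ∧ Run z0 p0 l3 K3 z3 (pg U c x v) ∧
      w ^ 2 = algebraMap ℂ (GM U) ((r : ℂ) ^ 2) - (pg U c x v) ^ 2 ∧
      mk U v = algebraMap ℂ (GM U) κ * z3 * (gg r w (pg U c x v)) ^ (2 * e) := by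
  obtain ⟨l, K, zb, κ, hl, htr, hκ, hrun, hmk⟩ := h.run
  obtain ⟨r, e, l3, K3, z3, w, h1, h2, h3, h4⟩ := H450Iv.flush z0 p0 l hl htr K zb _ hrun
    (Wg U c x v) B hB h.ch h.pos h.hW κ hκ
  exact ⟨r, e, κ, l3, K3, z3, w, h1, h2, h3, by rw [hmk, h4]⟩

theorem St.newcentre {z0 p0 : GM U} {x v : Q → ℂ} {c : ℂ} {B : List (ℝ × ℤ)}
    (h : St U z0 p0 x v c B) (hB : B ≠ []) (c' : ℂ) (hc : c' ≠ c) :
    St U z0 p0 x v c' [] := by
  obtain ⟨r, e, κ, l3, K3, z3, w, h1, h2, h3, h4⟩ := h.flush hB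
  have hrun := Run.hit l3 K3 z3 (pg U c x v) r e κ w h2 h3
  rw [← h4] at hrun
  have hrun2 := Run.shift _ _ _ _ (-(conj (c - c')) / (2 * Complex.I))
    ((c - c') / (2 * Complex.I)) hrun
  have hpg : pg U c x v + algebraMap ℂ (GM U) (-(conj (c - c')) / (2 * Complex.I)) * mk U v +
      algebraMap ℂ (GM U) ((c - c') / (2 * Complex.I)) * (mk U v)⁻¹ = pg U c' x v := by
    unfold pg
    rw [algMap_eq, algMap_eq, ← mk_inv, ← mk_mul, ← mk_mul, ← mk_add, ← mk_add, mk_eq]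
    filter_upwards [h.hv] with q hq
    exact (pd_change c c' (x q) (v q) hq).symm
  rw [hpg] at hrun2
  have hcc : c - c' ≠ 0 := sub_ne_zero.2 (Ne.symm hc)
  have h2I : (2 * Complex.I : ℂ) ≠ 0 := mul_ne_zero two_ne_zero Complex.I_ne_zero
  refine ⟨h.hv, ?_, by simp, by simp, trivial, by simp⟩
  have hwf : WF (Step.shift (-(conj (c - c')) / (2 * Complex.I)) ((c - c') / (2 * Complex.I)) ::
      Step.hit r e κ :: l3) := by
    refine ⟨h1, ?_, ?_, ?_⟩
    · exact div_ne_zero (neg_ne_zero.2 ((map_ne_zero _).2 hcc)) h2I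
    · exact div_ne_zero hcc h2I
    · intro hh; exact hh
  refine ⟨_, _, mk U v, 1, hwf, rfl, one_ne_zero, hrun2, ?_⟩
  simp

theorem St.final {z0 p0 : GM U} (h0 : Ind z0 p0) {x v : Q → ℂ} {c : ℂ} {B : List (ℝ × ℤ)}
    (h : St U z0 p0 x v c B) (hB : B ≠ []) : mk U v ∉ adjoin ℂ {z0, p0} := by
  obtain ⟨r, e, κ, l3, K3, z3, w, h1, h2, h3, h4⟩ := h.flush hB
  intro hmem
  apply hit_not_mem l3 r e κ h1 z0 p0 h0 K3 z3 _ h2 w h3
  rw [← h4]
  exact base_le h2 hmem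

theorem main_germ {z0 p0 : GM U} (h0 : Ind z0 p0) (H : List (ℂ × ℝ × ℤ))
    (hH : ∀ h ∈ H, 0 < h.2.1 ∧ (h.2.2 = 1 ∨ h.2.2 = -1)) :
    ∀ (x v : Q → ℂ) (c : ℂ) (B : List (ℝ × ℤ)), St U z0 p0 x v c B → B ≠ [] →
    ∀ v' : Q → ℂ, (∀ᶠ q in (U : Filter Q), Orb H (x q) (v q) (v' q)) →
      mk U v' ∉ adjoin ℂ {z0, p0} := by
  induction H with
  | nil =>
    intro x v c B hst hB v' hv'
    have : mk U v' = mk U v := by
      rw [mk_eq]; exact hv'
    rw [this]
    exact hst.final h0 hB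
  | cons hh H ih =>
    obtain ⟨c', R, s⟩ := hh
    intro x v c B hst hB v' hv'
    have hRs := hH (c', R, s) (by simp)
    have hch : ∃ t : Q → ℝ, ∀ᶠ q in (U : Filter Q), (0 < t q ∧ ‖x q + t q * v q - c'‖ = R ∧
      0 < (s : ℝ) * ((x q + t q * v q - c') * conj (v q)).re) ∧
      Orb H (x q + t q * v q) (refl c' R (x q + t q * v q) (v q)) (v' q) := by
      classical
      refine ⟨fun q => if hq : Orb ((c', R, s) :: H) (x q) (v q) (v' q) then hq.choose else 0, ?_⟩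
      filter_upwards [hv'] with q hq
      simp only [dif_pos hq]
      have := hq.choose_spec
      exact ⟨⟨this.1, this.2.1, this.2.2.1⟩, this.2.2.2⟩
    obtain ⟨t, ht⟩ := hch
    have key : ∃ B1, St U z0 p0 x v c' B1 := by
      by_cases hc : c' = c
      · exact ⟨B, hc ▸ hst⟩
      · exact ⟨[], hst.newcentre hB c' hc⟩
    obtain ⟨B1, hst1⟩ := key
    have hst2 := hst1.step R hRs.1 s hRs.2 t (ht.mono fun q hq => hq.1)
    exact ih (fun h hh => hH h (List.mem_cons_of_mem _ hh)) _ _ c' _ hst2 (by simp) v'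
      (ht.mono fun q hq => hq.2)

/-- Main theorem on germs: an orbit with at least one circular hit does not return by an isometry -/
theorem main_germ0 (x v : Q → ℂ) (hv : ∀ᶠ q in (U : Filter Q), v q * conj (v q) = 1)
    (c : ℂ) (R : ℝ) (s : ℤ) (H : List (ℂ × ℝ × ℤ))
    (hH : ∀ h ∈ (c, R, s) :: H, 0 < h.2.1 ∧ (h.2.2 = 1 ∨ h.2.2 = -1))
    (h0 : Ind (mk U v) (pg U c x v)) (v' : Q → ℂ)
    (hv' : ∀ᶠ q in (U : Filter Q), Orb ((c, R, s) :: H) (x q) (v q) (v' q)) :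
    mk U v' ∉ adjoin ℂ {mk U v, pg U c x v} := by
  have hst : St U (mk U v) (pg U c x v) x v c [] := by
    refine ⟨hv, ?_, by simp, by simp, trivial, by simp⟩
    exact ⟨[], _, mk U v, 1, trivial, rfl, one_ne_zero, Run.nil, by simp⟩
  have hRs := hH (c, R, s) (by simp)
  have hch : ∃ t : Q → ℝ, ∀ᶠ q in (U : Filter Q), (0 < t q ∧ ‖x q + t q * v q - c‖ = R ∧
      0 < (s : ℝ) * ((x q + t q * v q - c) * conj (v q)).re) ∧
      Orb H (x q + t q * v q) (refl c R (x q + t q * v q) (v q)) (v' q) := by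
    classical
    refine ⟨fun q => if hq : Orb ((c, R, s) :: H) (x q) (v q) (v' q) then hq.choose else 0, ?_⟩
    filter_upwards [hv'] with q hq
    simp only [dif_pos hq]
    have := hq.choose_spec
    exact ⟨⟨this.1, this.2.1, this.2.2.1⟩, this.2.2.2⟩
  obtain ⟨t, ht⟩ := hch
  have hst2 := hst.step R hRs.1 s hRs.2 t (ht.mono fun q hq => hq.1)
  exact main_germ h0 H (fun h hh => hH h (List.mem_cons_of_mem _ hh)) _ _ c _ hst2 (by simp) v'
    (ht.mono fun q hq => hq.2)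

end

end H450Iv
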