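import Mathlib
import Pool.Agent.H450R2.Iv.State

/-! Unfolding along flat mirrors. -/

set_option autoImplicit false

namespace H450Iv

open ComplexConjugate

noncomputable section

/-- mirrors: circles and lines -/
inductive Mir where
  | circ (c : ℂ) (R : ℝ)
  | line (ν : ℂ) (d : ℝ)

/-- isometries `x ↦ a x + b` or `x ↦ a conj x + b` -/
structure Iso where
  σ : Bool
  a : ℂ
  b : ℂ

/-- linear part -/
def Iso.lin (A : Iso) (v : ℂ) : ℂ := A.a * (if A.σ then conj v else v)
/-- action -/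
def Iso.ap (A : Iso) (x : ℂ) : ℂ := A.lin x + A.b
/-- unit condition -/
def Iso.unit (A : Iso) : Prop := A.a * conj A.a = 1

/-- direction after reflection in a line with normal `ν` -/
def lrefl (ν V : ℂ) : ℂ := -(ν ^ 2 / (Complex.normSq ν : ℂ) * conj V)

/-- orbits of a word -/
def POrb : List (Mir × ℤ) → ℂ → ℂ → ℂ → ℂ → Prop
  | [], P, V, P', V' => P' = P ∧ V' = V
  | (Mir.circ c R, s) :: w, P, V, P', V' => ∃ t : ℝ, 0 < t ∧ ‖P + t * V - c‖ = R ∧
      0 < (s : ℝ) * ((P + t * V - c) * conj V).re ∧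
      POrb w (P + t * V) (refl c R (P + t * V) V) P' V'
  | (Mir.line ν d, _) :: w, P, V, P', V' => ∃ t : ℝ, 0 < t ∧ ((P + t * V) * conj ν).re = d ∧
      POrb w (P + t * V) (lrefl ν V) P' V'

/-- inverse image of a point -/
def Iso.pre (A : Iso) (c : ℂ) : ℂ :=
  if A.σ then conj (conj A.a * (c - A.b)) else conj A.a * (c - A.b)

/-- composition with the reflection in a line -/
def Iso.comp (A : Iso) (ν : ℂ) (d : ℝ) : Iso where
  σ := !A.σ
  a := -(ν ^ 2 / (Complex.normSq ν : ℂ)) * conj A.a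
  b := -(ν ^ 2 / (Complex.normSq ν : ℂ)) * conj A.b + 2 * d * ν / (Complex.normSq ν : ℂ)

/-- unfolded circular hits -/
def unf : List (Mir × ℤ) → Iso → List (ℂ × ℝ × ℤ)
  | [], _ => []
  | (Mir.circ c R, s) :: w, A => (A.pre c, R, s) :: unf w A
  | (Mir.line ν d, _) :: w, A => unf w (A.comp ν d)

/-- final isometry -/
def fin : List (Mir × ℤ) → Iso → Iso
  | [], A => A
  | (Mir.circ _ _, _) :: w, A => fin w A
  | (Mir.line ν d, _) :: w, A => fin w (A.comp ν d)

/-- admissible mirrors -/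
def Good : List (Mir × ℤ) → Prop
  | [] => True
  | (Mir.circ _ R, s) :: w => 0 < R ∧ (s = 1 ∨ s = -1) ∧ Good w
  | (Mir.line ν _, _) :: w => ν ≠ 0 ∧ Good w

theorem nsq_ne {ν : ℂ} (h : ν ≠ 0) : (Complex.normSq ν : ℂ) ≠ 0 := by
  have := Complex.normSq_pos.2 h
  exact_mod_cast this.ne'

theorem nsq_eq (ν : ℂ) : (Complex.normSq ν : ℂ) = ν * conj ν := (Complex.mul_conj ν).symm

theorem comp_unit (A : Iso) (hA : A.unit) (ν : ℂ) (hν : ν ≠ 0) (d : ℝ) : (A.comp ν d).unit := by
  unfold Iso.unit Iso.comp at *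
  have h1 := nsq_ne hν
  have h2 := nsq_eq ν
  simp only [map_mul, map_neg, map_div₀, map_pow, Complex.conj_conj, Complex.conj_ofReal]
  have : -(ν ^ 2 / (Complex.normSq ν : ℂ)) * conj A.a *
      (-(conj ν ^ 2 / (Complex.normSq ν : ℂ)) * A.a) =
      (ν * conj ν) ^ 2 / (Complex.normSq ν : ℂ) ^ 2 * (A.a * conj A.a) := by
    ring
  rw [this, hA, ← h2]
  field_simp

theorem fin_unit (w : List (Mir × ℤ)) : ∀ A : Iso, A.unit → Good w → (fin w A).unit := by
  induction w with
  | nil => intro A hA _; exact hA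
  | cons h w ih =>
    obtain ⟨m, s⟩ := h
    intro A hA hg
    cases m with
    | circ c R => exact ih A hA hg.2.2
    | line ν d => exact ih _ (comp_unit A hA ν hg.1 d) hg.2

theorem lin_comp (A : Iso) (ν : ℂ) (d : ℝ) (v : ℂ) :
    (A.comp ν d).lin v = lrefl ν (A.lin v) := by
  unfold Iso.lin Iso.comp lrefl
  cases A.σ <;> simp <;> ring

theorem ap_comp (A : Iso) (ν : ℂ) (hν : ν ≠ 0) (d : ℝ) (x : ℂ)
    (h : (A.ap x * conj ν).re = d) : (A.comp ν d).ap x = A.ap x := by
  have h1 := nsq_ne hν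
  have h2 := nsq_eq ν
  have h3 : (2 * d : ℂ) = A.ap x * conj ν + conj (A.ap x) * ν := by
    have := Complex.add_conj (A.ap x * conj ν)
    rw [h] at this
    simp only [map_mul, Complex.conj_conj] at this
    rw [this]; push_cast; rfl
  have h4 : (A.comp ν d).ap x = -(ν ^ 2 / (Complex.normSq ν : ℂ)) * conj (A.ap x) +
      2 * d * ν / (Complex.normSq ν : ℂ) := by
    unfold Iso.ap
    rw [lin_comp]
    unfold lrefl Iso.comp
    simp only [map_add]
    ring
  rw [h4, h3]
  field_simp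
  rw [h2]
  ring

theorem lin_add (A : Iso) (x y : ℂ) : A.lin (x + y) = A.lin x + A.lin y := by
  unfold Iso.lin; cases A.σ <;> simp <;> ring

theorem lin_smul (A : Iso) (t : ℝ) (y : ℂ) : A.lin (t * y) = t * A.lin y := by
  unfold Iso.lin; cases A.σ <;> simp <;> ring

theorem ap_move (A : Iso) (x v : ℂ) (t : ℝ) : A.ap x + t * A.lin v = A.ap (x + t * v) := by
  unfold Iso.ap
  rw [lin_add, lin_smul]; ring

/-- `A x - c = A' (x - A⁻¹ c)` -/
theorem ap_sub (A : Iso) (hA : A.unit) (x c : ℂ) : A.ap x - c = A.lin (x - A.pre c) := by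
  unfold Iso.ap Iso.lin Iso.pre
  unfold Iso.unit at hA
  cases h : A.σ
  · simp
    linear_combination (c - A.b) * hA
  · simp
    linear_combination (c - A.b) * hA

theorem lin_mul_conj (A : Iso) (hA : A.unit) (x y : ℂ) :
    (A.lin x * conj (A.lin y)).re = (x * conj y).re := by
  unfold Iso.unit at hA
  unfold Iso.lin
  cases h : A.σ
  · simp only [Bool.false_eq_true, if_false, map_mul]
    have : A.a * x * (conj A.a * conj y) = (A.a * conj A.a) * (x * conj y) := by ring
    rw [this, hA, one_mul]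
  · simp only [if_true, map_mul, Complex.conj_conj]
    have : A.a * conj x * (conj A.a * y) = (A.a * conj A.a) * conj (x * conj y) := by
      simp only [map_mul, Complex.conj_conj]; ring
    rw [this, hA, one_mul, Complex.conj_re]

theorem lin_norm (A : Iso) (hA : A.unit) (x : ℂ) : ‖A.lin x‖ = ‖x‖ := by
  have h1 : ‖A.a‖ = 1 := by
    have h2 : Complex.normSq A.a = 1 := by
      have : (Complex.normSq A.a : ℂ) = 1 := by rw [nsq_eq]; exact hA
      exact_mod_cast this
    rw [Complex.normSq_eq_norm_sq] at h2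
    nlinarith [norm_nonneg A.a]
  unfold Iso.lin
  rw [norm_mul, h1, one_mul]
  cases A.σ <;> simp

theorem refl_lin (A : Iso) (hA : A.unit) (x c v : ℂ) (R : ℝ) :
    refl c R (A.ap x) (A.lin v) = A.lin (refl (A.pre c) R x v) := by
  have h1 := ap_sub A hA x c
  unfold refl
  rw [h1]
  unfold Iso.unit at hA
  unfold Iso.lin
  cases h : A.σ
  · simp only [Bool.false_eq_true, if_false, map_mul]
    linear_combination (-A.a * (x - A.pre c) ^ 2 / (R : ℂ) ^ 2 * conj v) * hA
  · simp only [if_true, map_mul, Complex.conj_conj, map_neg, map_div₀, map_pow,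
      Complex.conj_ofReal]
    linear_combination (-A.a * (conj (x - A.pre c)) ^ 2 / (R : ℂ) ^ 2 * v) * hA

theorem Orb_shift (H : List (ℂ × ℝ × ℤ)) (x v v' : ℂ) (t : ℝ) (ht : 0 < t)
    (h : Orb H (x + t * v) v v') : Orb H x v v' := by
  cases H with
  | nil => exact h
  | cons h0 H =>
    obtain ⟨t1, ht1, h1, h2, h3⟩ := h
    have e : x + t * v + t1 * v = x + ((t + t1 : ℝ) : ℂ) * v := by push_cast; ring
    rw [e] at h1 h2 h3
    exact ⟨t + t1, by linarith, h1, h2, h3⟩

/-- unfolding an orbit -/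
theorem unfold_orb (w : List (Mir × ℤ)) : ∀ (A : Iso), A.unit → Good w →
    ∀ (x v P' V' : ℂ), POrb w (A.ap x) (A.lin v) P' V' →
    ∃ v', Orb (unf w A) x v v' ∧ V' = (fin w A).lin v' := by
  induction w with
  | nil =>
    intro A hA _ x v P' V' h
    exact ⟨v, rfl, h.2⟩
  | cons h w ih =>
    obtain ⟨m, s⟩ := h
    intro A hA hg x v P' V' ho
    cases m with
    | circ c R =>
      obtain ⟨t, ht, h1, h2, h3⟩ := ho
      rw [ap_move] at h1 h2 h3
      rw [ap_sub A hA, lin_norm A hA] at h1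
      rw [ap_sub A hA, lin_mul_conj A hA] at h2
      rw [refl_lin A hA] at h3
      obtain ⟨v', hv', hV'⟩ := ih A hA hg.2.2 _ _ P' V' h3
      exact ⟨v', ⟨t, ht, h1, h2, hv'⟩, hV'⟩
    | line ν d =>
      obtain ⟨t, ht, h1, h3⟩ := ho
      rw [ap_move] at h1 h3
      rw [← ap_comp A ν hg.1 d _ h1, ← lin_comp A ν d] at h3
      obtain ⟨v', hv', hV'⟩ := ih _ (comp_unit A hA ν hg.1 d) hg.2 _ _ P' V' h3
      exact ⟨v', Orb_shift _ x v v' t ht hv', hV'⟩

/-- flat words -/
theorem flat_orb (w : List (Mir × ℤ)) : ∀ (A : Iso), A.unit → Good w → unf w A = [] →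
    ∀ (x v P' V' : ℂ), POrb w (A.ap x) (A.lin v) P' V' →
    ∃ T : ℝ, 0 ≤ T ∧ (w ≠ [] → 0 < T) ∧ P' = (fin w A).ap (x + T * v) ∧ V' = (fin w A).lin v := by
  induction w with
  | nil =>
    intro A hA _ _ x v P' V' h
    exact ⟨0, le_rfl, fun h => absurd rfl h, by simpa [fin] using h.1, h.2⟩
  | cons h w ih =>
    obtain ⟨m, s⟩ := h
    intro A hA hg hu x v P' V' ho
    cases m with
    | circ c R => exact absurd hu (by simp [unf])
    | line ν d =>
      obtain ⟨t, ht, h1, h3⟩ := ho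
      rw [ap_move] at h1 h3
      rw [← ap_comp A ν hg.1 d _ h1, ← lin_comp A ν d] at h3
      obtain ⟨T, hT, _, hP, hV⟩ := ih _ (comp_unit A hA ν hg.1 d) hg.2 hu _ _ P' V' h3
      refine ⟨t + T, by linarith, fun _ => by linarith, ?_, hV⟩
      rw [hP]
      simp only [fin]
      congr 1
      push_cast; ring

theorem unf_good (w : List (Mir × ℤ)) : ∀ (A : Iso), Good w →
    ∀ h ∈ unf w A, 0 < h.2.1 ∧ (h.2.2 = 1 ∨ h.2.2 = -1) := by
  induction w with
  | nil => intro A _ h hh; simp [unf] at hh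
  | cons h w ih =>
    obtain ⟨m, s⟩ := h
    intro A hg h hh
    cases m with
    | circ c R =>
      rcases List.mem_cons.1 hh with rfl | hh
      · exact ⟨hg.1, hg.2.1⟩
      · exact ih A hg.2.2 h hh
    | line ν d => exact ih _ hg.2 h hh

end

end H450Iv
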