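import Mathlib
import Pool.Agent.H450R2.Iv.Unfold
import Pool.Agent.H450R2.Iv.Null

/-! Periodic orbits with a given word form a null set. -/

set_option autoImplicit false

namespace H450Iv

open MeasureTheory ComplexConjugate IntermediateField Filter

noncomputable section

theorem null_dir (Z : Set ℂ) (hZ : Z.Finite) : volume {q : Q | zf q ∈ Z} = 0 := by
  have hc := countable_phi Z hZ
  have h1 : {q : Q | zf q ∈ Z} =
      Set.univ ×ˢ {φ : ℝ | Complex.exp (Complex.I * (φ : ℂ)) ∈ Z} := by
    ext q; simp [zf]
  rw [h1, Measure.volume_eq_prod, Measure.prod_prod, hc.measure_zero, mul_zero]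

theorem zf_unit (q : Q) : zf q * conj (zf q) = 1 := zf_mul q.2

theorem zf_inv (q : Q) : (zf q)⁻¹ = conj (zf q) := inv_eq_of_mul_eq_one_right (zf_unit q)

/-- the identity -/
def idI : Iso := ⟨false, 1, 0⟩

theorem idI_unit : idI.unit := by simp [idI, Iso.unit]
theorem idI_ap (x : ℂ) : idI.ap x = x := by simp [idI, Iso.ap, Iso.lin]
theorem idI_lin (x : ℂ) : idI.lin x = x := by simp [idI, Iso.lin]

theorem word_null (γ : ℝ → ℂ) (hγ : Continuous γ) (hinj : Set.InjOn γ (Set.Ioo 0 1))
    (hm : MirC γ) (w : List (Mir × ℤ)) (hw : Good w) (hne : w ≠ []) :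
    volume {q : Q | q.1 ∈ Set.Ioo (0 : ℝ) 1 ∧ POrb w (γ q.1) (zf q) (γ q.1) (zf q)} = 0 := by
  set S := {q : Q | q.1 ∈ Set.Ioo (0 : ℝ) 1 ∧ POrb w (γ q.1) (zf q) (γ q.1) (zf q)} with hS
  set A := fin w idI with hA
  have hAu : A.unit := fin_unit w idI idI_unit hw
  by_contra hvol
  have hfreq : ∃ᶠ q in ae (volume : Measure Q), q ∈ S := frequently_ae_mem_iff.2 hvol
  have hnb : (ae (volume : Measure Q) ⊓ 𝓟 S).NeBot := frequently_mem_iff_neBot.1 hfreq
  set U : Ultrafilter Q := Ultrafilter.of (ae (volume : Measure Q) ⊓ 𝓟 S) with hU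
  have hle : (U : Filter Q) ≤ ae (volume : Measure Q) ⊓ 𝓟 S := Ultrafilter.of_le _
  have hUS : ∀ᶠ q in (U : Filter Q), q ∈ S := by
    have : S ∈ (ae (volume : Measure Q) ⊓ 𝓟 S) := mem_inf_of_right (mem_principal_self S)
    exact hle this
  have hUN : ∀ N : Set Q, volume N = 0 → ∀ᶠ q in (U : Filter Q), q ∉ N := by
    intro N hN
    have h1 : ∀ᵐ q ∂(volume : Measure Q), q ∉ N := measure_eq_zero_iff_ae_notMem.1 hN
    exact (hle.trans inf_le_left) h1
  rcases hcase : unf w idI with _ | ⟨⟨c, R, s⟩, H⟩
  · -- flat words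
    have hflat : ∀ q ∈ S, ∃ T : ℝ, 0 < T ∧ γ q.1 = A.ap (γ q.1 + T * zf q) ∧
        zf q = A.lin (zf q) := by
      rintro q ⟨_, hq⟩
      have hq' : POrb w (idI.ap (γ q.1)) (idI.lin (zf q)) (γ q.1) (zf q) := by
        rw [idI_ap, idI_lin]; exact hq
      obtain ⟨T, _, hT, hP, hV⟩ := flat_orb w idI idI_unit hw hcase _ _ _ _ hq'
      exact ⟨T, hT hne, hP, hV⟩
    cases hσ : A.σ
    · -- orientation preserving
      have hsub : S ⊆ {q : Q | zf q ∈ ({-(A.b / ‖A.b‖)} : Set ℂ)} := by
        intro q hq
        obtain ⟨T, hT, hP, hV⟩ := hflat q hq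
        unfold Iso.lin at hV
        rw [hσ] at hV
        simp only [Bool.false_eq_true, if_false] at hV
        have hz0 : zf q ≠ 0 := by
          intro h0
          have := zf_unit q
          rw [h0, zero_mul] at this
          exact zero_ne_one this
        have ha : A.a = 1 := by
          have : (A.a - 1) * zf q = 0 := by linear_combination -hV
          rcases mul_eq_zero.1 this with h | h
          · linear_combination h
          · exact absurd h hz0
        unfold Iso.ap Iso.lin at hP
        rw [hσ, ha] at hP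
        simp only [Bool.false_eq_true, if_false, one_mul] at hP
        have hb : A.b = -(T * zf q) := by linear_combination -hP
        have hn : ‖zf q‖ = 1 := by
          have := zf_unit q
          rw [Complex.mul_conj, Complex.normSq_eq_norm_sq] at this
          have h2 : ‖zf q‖ ^ 2 = 1 := by exact_mod_cast this
          nlinarith [norm_nonneg (zf q)]
        have hbn : ‖A.b‖ = T := by
          rw [hb, norm_neg, norm_mul, hn, mul_one, Complex.norm_real, Real.norm_of_nonneg hT.le]
        have hT0 : (T : ℂ) ≠ 0 := by exact_mod_cast hT.ne'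
        change zf q = -(A.b / ‖A.b‖)
        rw [hbn, hb]
        field_simp
      exact hvol (measure_mono_null hsub (null_dir _ (Set.finite_singleton _)))
    · -- orientation reversing
      have hsub : S ⊆ {q : Q | zf q ∈ {z : ℂ | z ^ 2 = A.a}} := by
        intro q hq
        obtain ⟨T, hT, hP, hV⟩ := hflat q hq
        unfold Iso.lin at hV
        rw [hσ] at hV
        simp only [if_true] at hV
        change zf q ^ 2 = A.a
        have := zf_unit q
        calc zf q ^ 2 = zf q * zf q := by ring
          _ = zf q * (A.a * conj (zf q)) := by rw [← hV]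
          _ = A.a * (zf q * conj (zf q)) := by ring
          _ = A.a := by rw [this, mul_one]
      have hfin : {z : ℂ | z ^ 2 = A.a}.Finite := by
        obtain ⟨c, hc⟩ := IsAlgClosed.exists_pow_nat_eq A.a (n := 2) (by norm_num)
        refine Set.Finite.subset (Set.toFinite ({c, -c} : Set ℂ)) ?_
        intro z hz
        have : z ^ 2 = c ^ 2 := by rw [hc]; exact hz
        rcases sq_eq_sq_iff_eq_or_eq_neg.1 this with h | h
        · left; exact h
        · right; exact h
      exact hvol (measure_mono_null hsub (null_dir _ hfin))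
  · -- words with circular hits
    have hgood := unf_good w idI hw
    rw [hcase] at hgood
    have hIoo : ∀ᶠ q in (U : Filter Q), q.1 ∈ Set.Ioo (0 : ℝ) 1 := hUS.mono fun q hq => hq.1
    have hind : Ind (mk U zf) (pg U c (fun q => γ q.1) zf) := by
      apply ind_mk
      intro P hP
      have h1 := hUN _ (null_poly γ hγ hinj hm c P hP)
      filter_upwards [h1, hIoo] with q hq1 hq2 hq3
      exact hq1 ⟨hq2, hq3⟩
    have hch : ∃ v' : Q → ℂ, ∀ᶠ q in (U : Filter Q),
        Orb ((c, R, s) :: H) (γ q.1) (zf q) (v' q) ∧ zf q = A.lin (v' q) := by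
      classical
      have hex : ∀ q ∈ S, ∃ v', Orb ((c, R, s) :: H) (γ q.1) (zf q) v' ∧ zf q = A.lin v' := by
        rintro q ⟨_, hq⟩
        have hq' : POrb w (idI.ap (γ q.1)) (idI.lin (zf q)) (γ q.1) (zf q) := by
          rw [idI_ap, idI_lin]; exact hq
        obtain ⟨v', hv', hV'⟩ := unfold_orb w idI idI_unit hw _ _ _ _ hq'
        rw [hcase] at hv'
        exact ⟨v', hv', hV'⟩
      refine ⟨fun q => if hq : q ∈ S then (hex q hq).choose else 0, ?_⟩
      filter_upwards [hUS] with q hq
      simp only [dif_pos hq]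
      exact (hex q hq).choose_spec
    obtain ⟨v', hv'⟩ := hch
    have hmain := main_germ0 (U := U) (fun q => γ q.1) zf (Eventually.of_forall zf_unit) c R s H
      hgood hind v' (hv'.mono fun q hq => hq.1)
    apply hmain
    have hz : mk U zf ∈ adjoin ℂ {mk U zf, pg U c (fun q => γ q.1) zf} :=
      subset_adjoin ℂ _ (by simp)
    unfold Iso.unit at hAu
    cases hσ : A.σ
    · have h1 : mk U v' = algebraMap ℂ (GM U) (conj A.a) * mk U zf := by
        rw [algMap_eq, ← mk_mul, mk_eq]
        filter_upwards [hv'] with q hq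
        have h2 := hq.2
        unfold Iso.lin at h2
        rw [hσ] at h2
        simp only [Bool.false_eq_true, if_false] at h2
        rw [h2]
        linear_combination -(v' q) * hAu
      rw [h1]
      exact mul_mem (IntermediateField.algebraMap_mem _ _) hz
    · have h1 : mk U v' = algebraMap ℂ (GM U) A.a * (mk U zf)⁻¹ := by
        rw [algMap_eq, ← mk_inv, ← mk_mul, mk_eq]
        filter_upwards [hv'] with q hq
        have h2 := hq.2
        unfold Iso.lin at h2
        rw [hσ] at h2
        simp only [if_true] at h2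
        rw [zf_inv, h2]
        simp only [map_mul, Complex.conj_conj]
        linear_combination -(v' q) * hAu
      rw [h1]
      exact mul_mem (IntermediateField.algebraMap_mem _ _) (inv_mem hz)

end

end H450Iv
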