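import Mathlib
import Pool.Agent.H450R2.Iv.Word

/-! Itineraries: from orbits to words. -/

set_option autoImplicit false

namespace H450Iv

open MeasureTheory ComplexConjugate Filter

noncomputable section

/-- a bounce at a mirror -/
def Bounce : Mir → ℂ → ℂ → ℂ → ℂ → Prop
  | Mir.circ c R, P, V, P', V' => 0 < R ∧ ∃ t : ℝ, 0 < t ∧ P' = P + t * V ∧ ‖P' - c‖ = R ∧
      ((P' - c) * conj V).re ≠ 0 ∧ V' = refl c R P' V
  | Mir.line ν d, P, V, P', V' => ν ≠ 0 ∧ ∃ t : ℝ, 0 < t ∧ P' = P + t * V ∧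
      (P' * conj ν).re = d ∧ V' = lrefl ν V

/-- letters -/
def enc (b : Bool) : ℤ := if b then 1 else -1

theorem orb_word {ι : Type*} (M : ι → Mir) (P V : ℕ → ℂ) (n : ℕ) :
    ∀ k, k + n = n + k → (∀ l, k ≤ l → l < k + n → ∃ i, Bounce (M i) (P l) (V l) (P (l + 1)) (V (l + 1))) →
    ∃ w : List (ι × Bool), w.length = n ∧ Good (w.map fun x => (M x.1, enc x.2)) ∧
      POrb (w.map fun x => (M x.1, enc x.2)) (P k) (V k) (P (k + n)) (V (k + n)) := by
  induction n with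
  | zero => intro k _ _; exact ⟨[], rfl, trivial, rfl, rfl⟩
  | succ n ih =>
    intro k _ h
    obtain ⟨i, hi⟩ := h k le_rfl (by omega)
    obtain ⟨w, hw1, hw2, hw3⟩ := ih (k + 1) (by omega) (fun l h1 h2 => h l (by omega) (by omega))
    have he : k + 1 + n = k + (n + 1) := by ring
    rw [he] at hw3
    cases hM : M i with
    | circ c R =>
      rw [hM] at hi
      obtain ⟨hR, t, ht, hP, hn, hs, hV⟩ := hi
      rcases lt_or_gt_of_ne hs with h1 | h1
      · refine ⟨(i, false) :: w, by simp [hw1], ?_, ?_⟩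
        · simp only [List.map_cons, hM]
          exact ⟨hR, Or.inr rfl, hw2⟩
        · simp only [List.map_cons, hM]
          refine ⟨t, ht, ?_, ?_, ?_⟩
          · rw [← hP]; exact hn
          · rw [← hP]
            have h2 : ((enc false : ℤ) : ℝ) = -1 := by simp [enc]
            rw [h2]; linarith
          · rw [← hP, ← hV]; exact hw3
      · refine ⟨(i, true) :: w, by simp [hw1], ?_, ?_⟩
        · simp only [List.map_cons, hM]
          exact ⟨hR, Or.inl rfl, hw2⟩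
        · simp only [List.map_cons, hM]
          refine ⟨t, ht, ?_, ?_, ?_⟩
          · rw [← hP]; exact hn
          · rw [← hP]
            have h2 : ((enc true : ℤ) : ℝ) = 1 := by simp [enc]
            rw [h2]; linarith
          · rw [← hP, ← hV]; exact hw3
    | line ν d =>
      rw [hM] at hi
      obtain ⟨hν, t, ht, hP, hn, hV⟩ := hi
      refine ⟨(i, true) :: w, by simp [hw1], ?_, ?_⟩
      · simp only [List.map_cons, hM]
        exact ⟨hν, hw2⟩
      · simp only [List.map_cons, hM]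
        refine ⟨t, ht, ?_, ?_⟩
        · rw [← hP]; exact hn
        · rw [← hP, ← hV]; exact hw3

/-- orbits bouncing on countably many circles and lines are almost never periodic -/
theorem bounce_null {ι : Type*} [Countable ι] (M : ι → Mir) (γ : ℝ → ℂ) (hγ : Continuous γ)
    (hinj : Set.InjOn γ (Set.Ioo 0 1)) (hm : MirC γ) :
    volume {q : Q | q.1 ∈ Set.Ioo (0 : ℝ) 1 ∧ ∃ n : ℕ, 0 < n ∧ ∃ P V : ℕ → ℂ,
      P 0 = γ q.1 ∧ V 0 = zf q ∧ P n = P 0 ∧ V n = V 0 ∧
      ∀ k < n, ∃ i, Bounce (M i) (P k) (V k) (P (k + 1)) (V (k + 1))} = 0 := by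
  have hsub : {q : Q | q.1 ∈ Set.Ioo (0 : ℝ) 1 ∧ ∃ n : ℕ, 0 < n ∧ ∃ P V : ℕ → ℂ,
      P 0 = γ q.1 ∧ V 0 = zf q ∧ P n = P 0 ∧ V n = V 0 ∧
      ∀ k < n, ∃ i, Bounce (M i) (P k) (V k) (P (k + 1)) (V (k + 1))} ⊆
      ⋃ w : {w : List (ι × Bool) // w ≠ [] ∧ Good (w.map fun x => (M x.1, enc x.2))},
        {q : Q | q.1 ∈ Set.Ioo (0 : ℝ) 1 ∧
          POrb (w.1.map fun x => (M x.1, enc x.2)) (γ q.1) (zf q) (γ q.1) (zf q)} := by
    rintro q ⟨hq, n, hn, P, V, hP0, hV0, hPn, hVn, h⟩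
    obtain ⟨w, hw1, hw2, hw3⟩ := orb_word M P V n 0 (by simp) (fun l _ h2 => h l (by omega))
    refine Set.mem_iUnion.2 ⟨⟨w, ?_, hw2⟩, hq, ?_⟩
    · rintro rfl
      simp at hw1
      omega
    · rw [zero_add, hPn, hVn, hP0, hV0] at hw3
      exact hw3
  refine measure_mono_null hsub (measure_iUnion_null ?_)
  rintro ⟨w, hw1, hw2⟩
  exact word_null γ hγ hinj hm _ hw2 (by simpa using hw1)

/-- the complex point -/
def toC (p : ℝ × ℝ) : ℂ := ⟨p.1, p.2⟩

theorem toC_add (p q : ℝ × ℝ) : toC (p + q) = toC p + toC q := by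
  apply Complex.ext <;> simp [toC]

theorem toC_smul (t : ℝ) (p : ℝ × ℝ) : toC (t • p) = t * toC p := by
  apply Complex.ext <;> simp [toC]

theorem toC_inj {p q : ℝ × ℝ} (h : toC p = toC q) : p = q := by
  have h1 := congrArg Complex.re h
  have h2 := congrArg Complex.im h
  simp only [toC] at h1 h2
  exact Prod.ext h1 h2

theorem toC_cont {γ : ℝ → ℝ × ℝ} (h : Continuous γ) : Continuous fun s => toC (γ s) := by
  have : (fun s => toC (γ s)) = fun s => ((γ s).1 : ℂ) + ((γ s).2 : ℂ) * Complex.I := by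
    funext s
    apply Complex.ext <;> simp [toC]
  rw [this]
  fun_prop

/-- reflection formulas agree -/
theorem refl_eq (V w : ℂ) (a b : ℝ) (hw : w ≠ 0) (hab : a ≠ 0 ∨ b ≠ 0)
    (hpar : a * w.im = b * w.re) :
    V - (2 * (V.re * a + V.im * b) / (a ^ 2 + b ^ 2) : ℝ) * (⟨a, b⟩ : ℂ) =
      -(w ^ 2 / (Complex.normSq w : ℂ) * conj V) := by
  have hn : 0 < a ^ 2 + b ^ 2 := by
    rcases hab with h | h
    · have := sq_pos_of_ne_zero h; nlinarith [sq_nonneg b]
    · have := sq_pos_of_ne_zero h; nlinarith [sq_nonneg a]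
  have hw2 : 0 < w.re ^ 2 + w.im ^ 2 := by
    have := Complex.normSq_pos.2 hw
    rw [Complex.normSq_apply] at this
    nlinarith
  have h1 : (w.re ^ 2 - w.im ^ 2) * (a ^ 2 + b ^ 2) = (a ^ 2 - b ^ 2) * (w.re ^ 2 + w.im ^ 2) := by
    linear_combination (-2 * (a * w.im + b * w.re)) * hpar
  have h2 : (w.re * w.im) * (a ^ 2 + b ^ 2) = (a * b) * (w.re ^ 2 + w.im ^ 2) := by
    linear_combination (a * w.re - b * w.im) * hpar
  have e1 : (w.re ^ 2 - w.im ^ 2) / (w.re ^ 2 + w.im ^ 2) = (a ^ 2 - b ^ 2) / (a ^ 2 + b ^ 2) := by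
    rw [div_eq_div_iff hw2.ne' hn.ne']
    exact h1
  have e2 : (w.re * w.im) / (w.re ^ 2 + w.im ^ 2) = (a * b) / (a ^ 2 + b ^ 2) := by
    rw [div_eq_div_iff hw2.ne' hn.ne']
    exact h2
  have hq : w ^ 2 / (Complex.normSq w : ℂ) =
      ⟨(w.re ^ 2 - w.im ^ 2) / (w.re ^ 2 + w.im ^ 2), 2 * ((w.re * w.im) / (w.re ^ 2 + w.im ^ 2))⟩ := by
    have hns : Complex.normSq w = w.re ^ 2 + w.im ^ 2 := by rw [Complex.normSq_apply]; ring
    rw [hns, div_eq_iff (by exact_mod_cast hw2.ne')]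
    apply Complex.ext
    · simp [pow_two]
      field_simp
    · simp [pow_two]
      field_simp
      ring
  rw [hq, e1, e2]
  have hL : (2 * (V.re * a + V.im * b) / (a ^ 2 + b ^ 2)) * (a ^ 2 + b ^ 2) =
      2 * (V.re * a + V.im * b) := div_mul_cancel₀ _ hn.ne'
  generalize 2 * (V.re * a + V.im * b) / (a ^ 2 + b ^ 2) = L at hL
  apply Complex.ext
  · simp only [Complex.sub_re, Complex.mul_re, Complex.ofReal_re, Complex.ofReal_im,
      Complex.neg_re, Complex.conj_re, Complex.conj_im]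
    field_simp
    linear_combination (-a) * hL
  · simp only [Complex.sub_im, Complex.mul_im, Complex.ofReal_re, Complex.ofReal_im,
      Complex.neg_im, Complex.conj_re, Complex.conj_im]
    field_simp
    linear_combination (-b) * hL

/-- the reflection formula of the posed question -/
theorem frefl (V τ : ℝ × ℝ) (w : ℂ) (hw : w ≠ 0) (hτ : -τ.2 ≠ 0 ∨ τ.1 ≠ 0)
    (hpar : -τ.2 * w.im = τ.1 * w.re) :
    toC (V - (2 * (V.1 * (-τ.2) + V.2 * τ.1) / (τ.1 ^ 2 + τ.2 ^ 2)) • (-τ.2, τ.1)) =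
      -(w ^ 2 / (Complex.normSq w : ℂ) * conj (toC V)) := by
  rw [← refl_eq (toC V) w (-τ.2) τ.1 hw hτ hpar]
  have he : (-τ.2) ^ 2 + τ.1 ^ 2 = τ.1 ^ 2 + τ.2 ^ 2 := by ring
  rw [he]
  have h1 : (toC V).re = V.1 := rfl
  have h2 : (toC V).im = V.2 := rfl
  rw [h1, h2]
  generalize 2 * (V.1 * (-τ.2) + V.2 * τ.1) / (τ.1 ^ 2 + τ.2 ^ 2) = L
  apply Complex.ext
  · simp [toC]
  · simp [toC]

end

end H450Iv
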